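import Pool.Agent.H96R3.BC.Stmts

set_option autoImplicit false

open Finset

namespace Pool.Agent.H828R3.BC

open Pool.Agent.H96R3.BC

theorem log_eq_sum {n : ℕ} (hn : Squarefree n) :
    Real.log n = ∑ p ∈ n.primeFactors, Real.log p := by
  conv_lhs => rw [← Nat.prod_primeFactors_of_squarefree hn]
  push_cast
  rw [Real.log_prod]
  intro p hp
  have := (Nat.prime_of_mem_primeFactors hp).pos
  positivity

theorem exp_bound {x : ℝ} (hx : 0 < x) :
    Real.exp (-(x / 2)) ≤ ((Nat.factorial 16 : ℕ) * 2 ^ 16 : ℝ) / x ^ 16 := by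
  have h := Real.pow_div_factorial_le_exp (x / 2) (by positivity) 16
  rw [le_div_iff₀ (by positivity), Real.exp_neg, inv_mul_le_iff₀ (Real.exp_pos _)]
  rw [div_le_iff₀ (by positivity)] at h
  calc x ^ 16 = (x / 2) ^ 16 * 2 ^ 16 := by ring
    _ ≤ Real.exp (x / 2) * ((Nat.factorial 16 : ℕ) : ℝ) * 2 ^ 16 :=
      mul_le_mul_of_nonneg_right h (by positivity)
    _ = _ := by ring

theorem taskSmo : TaskSmo := by
  classical
  refine ⟨((Nat.factorial 16 : ℕ) * 2 ^ 16 : ℝ) + 256, by positivity, fun n hn1 hn h => ?_⟩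
  set L := Real.log n with hL
  set P := n.primeFactors with hP
  have hsum : L = ∑ p ∈ P, Real.log p := log_eq_sum hn
  obtain ⟨q, hq⟩ : P.Nonempty := Nat.nonempty_primeFactors.2 hn1
  have hL64 : 64 ≤ L := by
    have := h q hq
    linarith [this.1, this.2]
  have hL0 : 0 < L := by linarith
  have hf0 : ∀ p ∈ P, 0 ≤ 2 / (Real.log p) ^ 2 := fun p _ => by positivity
  have hf1 : ∀ p ∈ P, 2 / (Real.log p) ^ 2 ≤ 1 / 2 := by
    intro p hp
    have h2 := (h p hp).1
    rw [div_le_div_iff₀ (by positivity) (by norm_num)]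
    nlinarith
  set s := Real.sqrt L with hs
  have hs0 : 0 < s := Real.sqrt_pos.2 (by linarith)
  have hss : s * s = L := Real.mul_self_sqrt (by linarith)
  set B := P.filter (fun p : ℕ => s ≤ Real.log p) with hB
  set S := P.filter (fun p : ℕ => ¬ s ≤ Real.log p) with hS
  have hprod : ∏ p ∈ P, (2 / (Real.log p) ^ 2)
      = (∏ p ∈ B, (2 / (Real.log p) ^ 2)) * ∏ p ∈ S, (2 / (Real.log p) ^ 2) :=
    (prod_filter_mul_prod_filter_not _ _ _).symm
  have hsum2 : L = ∑ p ∈ B, Real.log p + ∑ p ∈ S, Real.log p := by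
    rw [hsum]; exact (sum_filter_add_sum_filter_not _ _ _).symm
  have hBP : ∀ p ∈ B, p ∈ P := fun p hp => (mem_filter.1 hp).1
  have hSP : ∀ p ∈ S, p ∈ P := fun p hp => (mem_filter.1 hp).1
  have hB0 : 0 ≤ ∏ p ∈ B, (2 / (Real.log p) ^ 2) := prod_nonneg fun p hp => hf0 p (hBP p hp)
  have hS0 : 0 ≤ ∏ p ∈ S, (2 / (Real.log p) ^ 2) := prod_nonneg fun p hp => hf0 p (hSP p hp)
  have hB1 : ∏ p ∈ B, (2 / (Real.log p) ^ 2) ≤ (2 / L) ^ B.card := by
    rw [← prod_const]
    refine prod_le_prod (fun p hp => hf0 p (hBP p hp)) fun p hp => ?_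
    have h1 : s ≤ Real.log p := (mem_filter.1 hp).2
    refine div_le_div_of_nonneg_left (by norm_num) hL0 ?_
    rw [← hss, pow_two]
    exact mul_le_mul h1 h1 hs0.le (by linarith)
  have hB1' : ∏ p ∈ B, (2 / (Real.log p) ^ 2) ≤ 1 :=
    prod_le_one (fun p hp => hf0 p (hBP p hp)) fun p hp => (hf1 p (hBP p hp)).trans (by norm_num)
  have hS1 : ∏ p ∈ S, (2 / (Real.log p) ^ 2) ≤ (1 / 2) ^ S.card := by
    rw [← prod_const]
    exact prod_le_prod (fun p hp => hf0 p (hSP p hp)) fun p hp => hf1 p (hSP p hp)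
  have hS1' : ∏ p ∈ S, (2 / (Real.log p) ^ 2) ≤ 1 :=
    prod_le_one (fun p hp => hf0 p (hSP p hp)) fun p hp => (hf1 p (hSP p hp)).trans (by norm_num)
  rw [hprod]
  by_cases hc : 8 ≤ B.card
  · have h2 : 2 / L ≤ 1 := by rw [div_le_one hL0]; linarith
    calc (∏ p ∈ B, (2 / (Real.log p) ^ 2)) * ∏ p ∈ S, (2 / (Real.log p) ^ 2)
        ≤ (2 / L) ^ B.card * 1 := mul_le_mul hB1 hS1' hS0 (by positivity)
      _ ≤ (2 / L) ^ 8 := by
        rw [mul_one]
        exact pow_le_pow_of_le_one (by positivity) h2 hc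
      _ = 256 / L ^ 8 := by rw [div_pow]; norm_num
      _ ≤ _ := by
        apply div_le_div_of_nonneg_right _ (by positivity)
        have : (0 : ℝ) ≤ (Nat.factorial 16 : ℕ) * 2 ^ 16 := by positivity
        linarith
  · have hc7 : (B.card : ℝ) ≤ 7 := by
      have : B.card ≤ 7 := by omega
      exact_mod_cast this
    have h3 : ∑ p ∈ B, Real.log p ≤ 7 * (L / 32) := by
      calc ∑ p ∈ B, Real.log p ≤ ∑ _p ∈ B, L / 32 :=
            sum_le_sum fun p hp => by have := (h p (hBP p hp)).2; linarith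
        _ = B.card * (L / 32) := by rw [sum_const, nsmul_eq_mul]
        _ ≤ _ := mul_le_mul_of_nonneg_right hc7 (by positivity)
    have h4 : ∑ p ∈ S, Real.log p ≤ S.card * s := by
      calc ∑ p ∈ S, Real.log p ≤ ∑ _p ∈ S, s :=
            sum_le_sum fun p hp => by have := (mem_filter.1 hp).2; linarith
        _ = S.card * s := by rw [sum_const, nsmul_eq_mul]
    have h5 : (3 / 4) * s ≤ S.card := by
      have h6 : 25 / 32 * L ≤ S.card * s := by linarith
      rw [← hss] at h6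
      have h7 : 25 / 32 * s ≤ (S.card : ℝ) := by
        by_contra h8
        push Not at h8
        have := mul_lt_mul_of_pos_right h8 hs0
        linarith
      linarith
    have h6 : ((1 : ℝ) / 2) ^ S.card ≤ Real.exp (-(s / 2)) := by
      have h7 : ((1 : ℝ) / 2) ^ S.card = Real.exp (-(Real.log 2 * S.card)) := by
        rw [Real.exp_neg, mul_comm (Real.log 2), Real.exp_nat_mul, Real.exp_log (by norm_num), one_div,
          inv_pow]
      rw [h7]
      apply Real.exp_le_exp.2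
      have := Real.log_two_gt_d9
      nlinarith
    calc (∏ p ∈ B, (2 / (Real.log p) ^ 2)) * ∏ p ∈ S, (2 / (Real.log p) ^ 2)
        ≤ 1 * (1 / 2) ^ S.card := mul_le_mul hB1' hS1 hS0 (by norm_num)
      _ ≤ Real.exp (-(s / 2)) := by rw [one_mul]; exact h6
      _ ≤ ((Nat.factorial 16 : ℕ) * 2 ^ 16 : ℝ) / s ^ 16 := exp_bound hs0
      _ = ((Nat.factorial 16 : ℕ) * 2 ^ 16 : ℝ) / L ^ 8 := by
        rw [← hss]; ring_nf
      _ ≤ _ := by
        apply div_le_div_of_nonneg_right _ (by positivity)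
        linarith

end Pool.Agent.H828R3.BC
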