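import Pool.Agent.H828R3.Exist

set_option autoImplicit false

namespace Pool.Agent.H828R3

open Real Filter

theorem upper_nat (F : ℕ → ℕ)
    (hup : ∀ n m b, Cov n m → n + 1 ≤ 2 ^ b → F n ≤ m + (1 + b * 3))
    {n L : ℕ} (hn : 2 ≤ n) (hnL : n ≤ 2 ^ L) (hL : 1 ≤ L) (h9 : 2 * (9 * L ^ 2) ≤ n) :
    ∃ a : ℕ, 1 ≤ a ∧ n < 9 * L ^ 2 * 2 ^ (a + 1) ∧ F n ≤ n / a + 1 + (4 * L + 6) := by
  set q := n / (9 * L ^ 2) with hq
  have h9pos : 0 < 9 * L ^ 2 := by positivity
  have hq2 : 2 ≤ q := by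
    rw [hq, Nat.le_div_iff_mul_le h9pos]
    exact h9
  have hq0 : q ≠ 0 := by omega
  set a := Nat.log 2 q with ha
  have ha1 : 1 ≤ a := by
    rw [ha]
    have := (Nat.le_log_iff_pow_le (b := 2) (x := 1) (by norm_num) hq0).2 (by simpa using hq2)
    exact this
  have h1 : 2 ^ a ≤ q := Nat.pow_log_le_self 2 hq0
  have h2 : q < 2 ^ (a + 1) := Nat.lt_pow_succ_log_self (by norm_num) q
  have h3 : 9 * L ^ 2 * 2 ^ a ≤ n := by
    calc 9 * L ^ 2 * 2 ^ a ≤ 9 * L ^ 2 * q := Nat.mul_le_mul_left _ h1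
      _ ≤ n := Nat.mul_div_le n _
  have h4 : n < 9 * L ^ 2 * 2 ^ (a + 1) := by
    have h5 : n < 9 * L ^ 2 * (q + 1) := by
      have := Nat.lt_mul_div_succ n h9pos
      simpa [hq] using this
    exact h5.trans_le (Nat.mul_le_mul_left _ h2)
  refine ⟨a, ha1, h4, ?_⟩
  have hN2 : 2 ≤ 2 ^ a := by
    calc 2 = 2 ^ 1 := by norm_num
      _ ≤ 2 ^ a := Nat.pow_le_pow_right (by norm_num) ha1
  have hd : 1 ≤ n / a + 1 := Nat.succ_le_succ (Nat.zero_le _)
  have hNn : 2 ^ a ≤ n := by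
    calc 2 ^ a ≤ 9 * L ^ 2 * 2 ^ a := Nat.le_mul_of_pos_left _ h9pos
      _ ≤ n := h3
  have hmain : 3 * ((2 ^ a : ℕ) : ℝ) * L * Real.log (2 * ((n / a + 1 : ℕ) : ℝ) * ((2 ^ a : ℕ) : ℝ)) ≤ n := by
    have hL1 : (1 : ℝ) ≤ L := by exact_mod_cast hL
    have hlog : Real.log (2 * ((n / a + 1 : ℕ) : ℝ) * ((2 ^ a : ℕ) : ℝ)) ≤ 3 * L := by
      have e1 : (2 * ((n / a + 1 : ℕ) : ℝ) * ((2 ^ a : ℕ) : ℝ)) ≤ 2 ^ (2 * L + 2) := by
        have e2 : 2 * (n / a + 1) * 2 ^ a ≤ 2 ^ (2 * L + 2) := by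
          have e3 : n / a + 1 ≤ 2 * n := by
            have := Nat.div_le_self n a
            omega
          calc 2 * (n / a + 1) * 2 ^ a ≤ 2 * (2 * n) * n :=
                Nat.mul_le_mul (Nat.mul_le_mul_left _ e3) hNn
            _ = 4 * (n * n) := by ring
            _ ≤ 4 * (2 ^ L * 2 ^ L) := Nat.mul_le_mul_left _ (Nat.mul_le_mul hnL hnL)
            _ = 2 ^ (2 * L + 2) := by ring
        exact_mod_cast e2
      calc Real.log (2 * ((n / a + 1 : ℕ) : ℝ) * ((2 ^ a : ℕ) : ℝ))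
          ≤ Real.log (2 ^ (2 * L + 2)) := Real.log_le_log (by positivity) e1
        _ = (2 * L + 2) * Real.log 2 := by
            rw [Real.log_pow]; push_cast; ring
        _ ≤ (2 * L + 2) * 0.7 := by
            apply mul_le_mul_of_nonneg_left _ (by positivity)
            have := Real.log_two_lt_d9
            linarith
        _ ≤ 3 * L := by linarith
    have h3' : (9 : ℝ) * L ^ 2 * ((2 ^ a : ℕ) : ℝ) ≤ n := by exact_mod_cast h3
    calc 3 * ((2 ^ a : ℕ) : ℝ) * L * Real.log (2 * ((n / a + 1 : ℕ) : ℝ) * ((2 ^ a : ℕ) : ℝ))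
        ≤ 3 * ((2 ^ a : ℕ) : ℝ) * L * (3 * L) :=
          mul_le_mul_of_nonneg_left hlog (by positivity)
      _ = 9 * L ^ 2 * ((2 ^ a : ℕ) : ℝ) := by ring
      _ ≤ n := h3'
  have hNd : 2 ^ n ≤ (2 ^ a) ^ (n / a + 1) := by
    rw [← pow_mul]
    apply Nat.pow_le_pow_right (by norm_num)
    have := Nat.lt_mul_div_succ n (by omega : 0 < a)
    omega
  have hcov : Cov n ((n / a + 1) + (L + 2)) := by
    apply cov_exists (by omega) hN2 hL hd hnL hmain hNd
    calc 4 * n ≤ 4 * 2 ^ L := Nat.mul_le_mul_left _ hnL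
      _ = 2 ^ (L + 2) := by ring
  have := hup n _ (L + 1) hcov (by
    calc n + 1 ≤ 2 * n := by omega
      _ ≤ 2 * 2 ^ L := Nat.mul_le_mul_left _ hnL
      _ = 2 ^ (L + 1) := by ring)
  omega

theorem log_aux {x : ℝ} (hx : 4 ≤ x) :
    5 + 2 * Real.logb 2 (x + 1) ≤ 10 * Real.log x := by
  have h2 := Real.log_two_gt_d9
  have h2' := Real.log_two_lt_d9
  have hlx : 2 * Real.log 2 ≤ Real.log x := by
    have : Real.log 4 ≤ Real.log x := Real.log_le_log (by norm_num) hx
    have h4 : Real.log 4 = 2 * Real.log 2 := by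
      rw [show (4 : ℝ) = 2 ^ 2 by norm_num, Real.log_pow]; norm_num
    linarith
  have h1 : Real.log (x + 1) ≤ Real.log 2 + Real.log x := by
    rw [← Real.log_mul (by norm_num) (by linarith)]
    exact Real.log_le_log (by linarith) (by linarith)
  have h3 : Real.logb 2 (x + 1) ≤ 2.2 * Real.log x := by
    rw [Real.logb, div_le_iff₀ (by linarith)]
    nlinarith
  nlinarith

theorem upper_real (F : ℕ → ℕ)
    (hup : ∀ n m b, Cov n m → n + 1 ≤ 2 ^ b → F n ≤ m + (1 + b * 3)) :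
    ∀ᶠ n : ℕ in atTop, (F n : ℝ) - n / Real.logb 2 n ≤
      21 * (n * Real.log (Real.logb 2 n) / (Real.logb 2 n) ^ 2) := by
  have hlogb : Tendsto (fun n : ℕ => Real.logb 2 (n : ℝ)) atTop atTop :=
    (Real.tendsto_logb_atTop (by norm_num)).comp tendsto_natCast_atTop_atTop
  have e1 : ∀ᶠ n : ℕ in atTop, 4 ≤ Real.logb 2 (n : ℝ) := hlogb.eventually_ge_atTop 4
  -- `log x ≤ x / 20`
  have e2 : ∀ᶠ n : ℕ in atTop, Real.log (Real.logb 2 (n : ℝ)) ≤ Real.logb 2 (n : ℝ) / 20 := by
    have h := Real.isLittleO_log_id_atTop.bound (show (0 : ℝ) < 1 / 20 by norm_num)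
    have h' := hlogb.eventually h
    filter_upwards [h', e1] with n hn h4
    simp only [Real.norm_eq_abs, id] at hn
    rw [abs_of_nonneg (by linarith : (0 : ℝ) ≤ Real.logb 2 (n : ℝ))] at hn
    have := le_abs_self (Real.log (Real.logb 2 (n : ℝ)))
    linarith
  -- polynomial in log at most n
  have e3 : ∀ᶠ n : ℕ in atTop, (Real.log (n : ℝ)) ^ 3 ≤ (1 / 1000) * n := by
    have h := (isLittleO_pow_log_id_atTop (n := 3)).bound (show (0 : ℝ) < 1 / 1000 by norm_num)
    have h' := tendsto_natCast_atTop_atTop.eventually h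
    filter_upwards [h', eventually_ge_atTop 1] with n hn h1
    simp only [Real.norm_eq_abs, id] at hn
    have hnn : |(n : ℝ)| = n := abs_of_nonneg (Nat.cast_nonneg n)
    rw [hnn] at hn
    have := le_abs_self (Real.log (n : ℝ) ^ 3)
    linarith
  filter_upwards [e1, e2, e3, eventually_ge_atTop 2] with n h1 h2 h3 hn
  set x := Real.logb 2 (n : ℝ) with hx
  set L := Nat.clog 2 n with hL
  have hlog2 := Real.log_two_gt_d9
  have hlog2' := Real.log_two_lt_d9
  have hn0 : (0 : ℝ) < n := by positivity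
  have hxl : x * Real.log 2 = Real.log n := by
    rw [hx, Real.logb, div_mul_cancel₀]
    linarith
  have hnL : n ≤ 2 ^ L := Nat.le_pow_clog (by norm_num) n
  have hLpos : 1 ≤ L := by
    rw [hL]
    exact Nat.clog_pos (by norm_num) hn
  have hLx : (L : ℝ) ≤ x + 1 := by
    have h4 : 2 ^ (L - 1) < n := by
      have := Nat.pow_pred_clog_lt_self (b := 2) (x := n) (by norm_num) (by omega)
      simpa [hL] using this
    have h5 : ((2 : ℝ) ^ (L - 1)) < n := by exact_mod_cast h4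
    have h6 : ((L - 1 : ℕ) : ℝ) * Real.log 2 ≤ Real.log n := by
      rw [← Real.log_pow]
      exact Real.log_le_log (by positivity) h5.le
    rw [← hxl] at h6
    have h7 : ((L - 1 : ℕ) : ℝ) ≤ x := le_of_mul_le_mul_right h6 (by linarith)
    rw [Nat.cast_sub hLpos] at h7
    push_cast at h7
    linarith
  -- bound on x^3
  have hx3 : x ^ 3 ≤ (1 / 300) * n := by
    have h8 : (x * Real.log 2) ^ 3 ≤ (1 / 1000) * n := by rw [hxl]; exact h3
    have h9 : x ^ 3 * (0.69 : ℝ) ^ 3 ≤ (x * Real.log 2) ^ 3 := by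
      rw [mul_pow]
      apply mul_le_mul_of_nonneg_left _ (by positivity)
      apply pow_le_pow_left₀ (by norm_num)
      linarith
    nlinarith
  have hx2 : 4 * x ^ 2 ≤ x ^ 3 := by nlinarith [sq_nonneg x]
  have h9L : 2 * (9 * L ^ 2) ≤ n := by
    have : (2 : ℝ) * (9 * (L : ℝ) ^ 2) ≤ n := by
      have h10 : (L : ℝ) ^ 2 ≤ (x + 1) ^ 2 := by
        apply pow_le_pow_left₀ (by positivity) hLx
      nlinarith
    exact_mod_cast this
  obtain ⟨a, ha1, ha2, hF⟩ := upper_nat F hup hn hnL hLpos h9L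
  have ha0 : (0 : ℝ) < a := by exact_mod_cast ha1
  -- lower bound on a
  have ha3 : x - 10 * Real.log x ≤ a := by
    have h11 : (n : ℝ) ≤ 9 * (x + 1) ^ 2 * 2 ^ (a + 1) := by
      have h12 : (n : ℝ) ≤ 9 * (L : ℝ) ^ 2 * 2 ^ (a + 1) := by exact_mod_cast ha2.le
      have h13 : 9 * (L : ℝ) ^ 2 * 2 ^ (a + 1) ≤ 9 * (x + 1) ^ 2 * 2 ^ (a + 1) := by
        apply mul_le_mul_of_nonneg_right _ (by positivity)
        apply mul_le_mul_of_nonneg_left _ (by norm_num)
        apply pow_le_pow_left₀ (by positivity) hLx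
      linarith
    have h14 : x ≤ Real.logb 2 9 + 2 * Real.logb 2 (x + 1) + (a + 1) := by
      have h15 : Real.logb 2 (n : ℝ) ≤ Real.logb 2 (9 * (x + 1) ^ 2 * 2 ^ (a + 1)) :=
        Real.logb_le_logb_of_le (by norm_num) hn0 h11
      rw [Real.logb_mul (by positivity) (by positivity), Real.logb_mul (by norm_num) (by positivity),
        Real.logb_pow, Real.logb_pow, Real.logb_self_eq_one (by norm_num)] at h15
      push_cast at h15
      rw [← hx] at h15
      linarith
    have h16 : Real.logb 2 9 ≤ 4 := by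
      rw [Real.logb_le_iff_le_rpow (by norm_num) (by norm_num)]
      norm_num
    have h17 := log_aux h1
    linarith
  have hxpos : (0 : ℝ) < x := by linarith
  have hlogx : 1 ≤ Real.log x := by
    have h18 : Real.log 4 ≤ Real.log x := Real.log_le_log (by norm_num) h1
    have h4 : Real.log 4 = 2 * Real.log 2 := by
      rw [show (4 : ℝ) = 2 ^ 2 by norm_num, Real.log_pow]; norm_num
    linarith
  have ha4 : x / 2 ≤ a := by linarith
  have hF' : (F n : ℝ) ≤ n / a + 1 + (4 * L + 6) := by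
    have h19 : (F n : ℝ) ≤ ((n / a : ℕ) : ℝ) + 1 + (4 * L + 6) := by exact_mod_cast hF
    have h20 : ((n / a : ℕ) : ℝ) ≤ n / a := Nat.cast_div_le
    linarith
  have h21 : (n : ℝ) / a - n / x ≤ 20 * (n * Real.log x / x ^ 2) := by
    have h22 : (n : ℝ) / a - n / x = n * (x - a) / (a * x) := by
      field_simp
    rw [h22]
    have h23 : n * (x - a) / (a * x) ≤ n * (10 * Real.log x) / (a * x) := by
      apply div_le_div_of_nonneg_right _ (by positivity)
      apply mul_le_mul_of_nonneg_left _ hn0.le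
      linarith
    have h24 : n * (10 * Real.log x) / (a * x) ≤ n * (10 * Real.log x) / (x / 2 * x) := by
      apply div_le_div_of_nonneg_left _ (by positivity)
      · apply mul_le_mul_of_nonneg_right ha4 hxpos.le
      · have : 0 ≤ Real.log x := by linarith
        positivity
    have h25 : n * (10 * Real.log x) / (x / 2 * x) = 20 * (n * Real.log x / x ^ 2) := by
      field_simp
      ring
    linarith
  have h26 : (4 : ℝ) * L + 7 ≤ n * Real.log x / x ^ 2 := by
    rw [le_div_iff₀ (by positivity)]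
    have h27 : ((4 : ℝ) * L + 7) * x ^ 2 ≤ (4 * (x + 1) + 7) * x ^ 2 := by
      apply mul_le_mul_of_nonneg_right _ (by positivity)
      linarith
    have h28 : (4 * (x + 1) + 7) * x ^ 2 ≤ n := by nlinarith
    have h29 : (n : ℝ) ≤ n * Real.log x := by nlinarith
    linarith
  linarith

theorem lower_real (F : ℕ → ℕ) (hlow : ∀ n, 2 ^ n ≤ (n + 1) ^ (F n)) :
    ∀ᶠ n : ℕ in atTop, -(n * Real.log (Real.logb 2 n) / (Real.logb 2 n) ^ 2) ≤
      (F n : ℝ) - n / Real.logb 2 n := by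
  have hlogb : Tendsto (fun n : ℕ => Real.logb 2 (n : ℝ)) atTop atTop :=
    (Real.tendsto_logb_atTop (by norm_num)).comp tendsto_natCast_atTop_atTop
  have e1 : ∀ᶠ n : ℕ in atTop, 4 ≤ Real.logb 2 (n : ℝ) := hlogb.eventually_ge_atTop 4
  filter_upwards [e1, eventually_ge_atTop 2] with n h1 hn
  set x := Real.logb 2 (n : ℝ) with hx
  have hlog2 := Real.log_two_gt_d9
  have hlog2' := Real.log_two_lt_d9
  have hn0 : (0 : ℝ) < n := by positivity
  have hn2 : (2 : ℝ) ≤ n := by exact_mod_cast hn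
  have hxpos : (0 : ℝ) < x := by linarith
  set z := Real.logb 2 ((n : ℝ) + 1) with hz
  have hzx : z ≤ x + 2 / n := by
    have h2 : Real.log ((n : ℝ) + 1) ≤ Real.log n + 1 / n := by
      have h3 : (n : ℝ) + 1 = n * (1 + 1 / n) := by field_simp
      rw [h3, Real.log_mul hn0.ne' (by positivity)]
      have := Real.log_le_sub_one_of_pos (show (0 : ℝ) < 1 + 1 / n by positivity)
      linarith
    rw [hz, hx, Real.logb, Real.logb]
    have hl2 : (0 : ℝ) < Real.log 2 := by linarith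
    rw [div_add' _ _ _ hl2.ne']
    apply div_le_div_of_nonneg_right _ hl2.le
    have : (1 : ℝ) / n ≤ 2 / n * Real.log 2 := by
      rw [div_mul_eq_mul_div]
      apply div_le_div_of_nonneg_right _ hn0.le
      linarith
    linarith
  have hxz : x ≤ z := by
    rw [hz, hx]
    exact Real.logb_le_logb_of_le (by norm_num) hn0 (by linarith)
  have hzpos : 0 < z := by linarith
  have h4 : (n : ℝ) / z ≤ F n := by
    rw [div_le_iff₀ hzpos]
    have h5 : ((2 : ℝ) ^ n) ≤ ((n : ℝ) + 1) ^ (F n) := by exact_mod_cast hlow n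
    have h6 := Real.logb_le_logb_of_le (b := 2) (by norm_num) (by positivity) h5
    rw [Real.logb_pow, Real.logb_pow, Real.logb_self_eq_one (by norm_num)] at h6
    linarith
  have h7 : (n : ℝ) / x - n / z ≤ n * Real.log x / x ^ 2 := by
    have h8 : (n : ℝ) / x - n / z = n * (z - x) / (x * z) := by
      field_simp
    rw [h8]
    have h9 : n * (z - x) / (x * z) ≤ 2 / x ^ 2 := by
      have h10 : n * (z - x) ≤ 2 := by
        have : n * (z - x) ≤ n * (2 / n) := by
          apply mul_le_mul_of_nonneg_left _ hn0.le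
          linarith
        rwa [mul_div_cancel₀ _ hn0.ne'] at this
      calc n * (z - x) / (x * z) ≤ 2 / (x * z) := by
            apply div_le_div_of_nonneg_right h10 (by positivity)
        _ ≤ 2 / x ^ 2 := by
            apply div_le_div_of_nonneg_left (by norm_num) (by positivity)
            nlinarith
    have h11 : 2 / x ^ 2 ≤ n * Real.log x / x ^ 2 := by
      apply div_le_div_of_nonneg_right _ (by positivity)
      have h18 : Real.log 4 ≤ Real.log x := Real.log_le_log (by norm_num) h1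
      have h4 : Real.log 4 = 2 * Real.log 2 := by
        rw [show (4 : ℝ) = 2 ^ 2 by norm_num, Real.log_pow]; norm_num
      nlinarith
    linarith
  linarith

theorem asymp (F : ℕ → ℕ) (hlow : ∀ n, 2 ^ n ≤ (n + 1) ^ (F n))
    (hup : ∀ n m b, Cov n m → n + 1 ≤ 2 ^ b → F n ≤ m + (1 + b * 3)) :
    (fun n : ℕ => (F n : ℝ) - n / Real.logb 2 n) =O[atTop]
      (fun n : ℕ => n * Real.log (Real.logb 2 n) / (Real.logb 2 n) ^ 2) := by
  apply Asymptotics.IsBigO.of_bound 21
  have hlogb : Tendsto (fun n : ℕ => Real.logb 2 (n : ℝ)) atTop atTop :=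
    (Real.tendsto_logb_atTop (by norm_num)).comp tendsto_natCast_atTop_atTop
  have e1 : ∀ᶠ n : ℕ in atTop, 4 ≤ Real.logb 2 (n : ℝ) := hlogb.eventually_ge_atTop 4
  filter_upwards [upper_real F hup, lower_real F hlow, e1] with n h1 h2 h3
  have h4 : 0 ≤ n * Real.log (Real.logb 2 n) / (Real.logb 2 (n : ℝ)) ^ 2 := by
    have : 0 ≤ Real.log (Real.logb 2 n) := Real.log_nonneg (by linarith)
    positivity
  rw [Real.norm_eq_abs, Real.norm_eq_abs, abs_of_nonneg h4, abs_le]
  constructor <;> linarith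

end Pool.Agent.H828R3
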