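import Mathlib

set_option autoImplicit false

namespace Pool.Agent.H828R3

/-- `(L, τ)` with index set `ι` is a Boolean realizer of the strict order `lt`. -/
def IsBR {X ι : Type} (lt : X → X → Prop) (L : ι → X → X → Prop)
    (τ : (ι → Prop) → Prop) : Prop :=
  (∀ i, IsStrictTotalOrder X (L i)) ∧ ∀ x y, x ≠ y → (lt x y ↔ τ (fun i => L i x y))

/-- there is a Boolean realizer with `d` linear orders -/
def HasBR {X : Type} (lt : X → X → Prop) (d : ℕ) : Prop :=
  ∃ (L : Fin d → X → X → Prop) (τ : (Fin d → Prop) → Prop), IsBR lt L τ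

/-- it suffices that the relation is determined by the vector of comparisons -/
theorem hasBR_of_determined {X ι : Type} [Fintype ι] (lt : X → X → Prop) (L : ι → X → X → Prop)
    (hL : ∀ i, IsStrictTotalOrder X (L i))
    (h : ∀ x y x' y', x ≠ y → x' ≠ y' → (∀ i, L i x y ↔ L i x' y') → lt x y → lt x' y') :
    HasBR lt (Fintype.card ι) := by
  classical
  let e := Fintype.equivFin ι
  refine ⟨fun i => L (e.symm i),
    fun q => ∃ x y, x ≠ y ∧ lt x y ∧ ∀ i, q i ↔ L (e.symm i) x y, fun i => hL _, ?_⟩
  intro x y hxy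
  constructor
  · intro hlt
    exact ⟨x, y, hxy, hlt, fun i => Iff.rfl⟩
  · rintro ⟨x', y', hne, hlt, hq⟩
    refine h x' y' x y hne hxy ?_ hlt
    intro i
    have := hq (e i)
    simp only [Equiv.symm_apply_apply] at this
    exact this.symm

/-- the order given by a key with a tie-break -/
def ordOf {X : Type} (K E : X → ℤ) (x y : X) : Prop := K x < K y ∨ (K x = K y ∧ E x < E y)

theorem ordOf_total {X : Type} (K E : X → ℤ) (h : ∀ x y, K x = K y → E x = E y → x = y) :
    IsStrictTotalOrder X (ordOf K E) :=
  { trichotomous := by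
      intro x y hxy hyx
      unfold ordOf at hxy hyx
      push Not at hxy hyx
      have h1 : K x = K y := le_antisymm hyx.1 hxy.1
      have h2 := hxy.2 h1
      have h3 := hyx.2 h1.symm
      exact h x y h1 (le_antisymm h3 h2)
    irrefl := by
      intro x hx
      unfold ordOf at hx
      rcases hx with h | ⟨_, h⟩ <;> exact lt_irrefl _ h
    trans := by
      intro x y z hxy hyz
      unfold ordOf at *
      omega }

theorem bits_lemma {X : Type} (p : X → ℤ) (e : X → ℤ) (he : Function.Injective e)
    (hp : ∀ x, p x = 0 ∨ p x = 1) {x y x' y' : X} (hxy : x ≠ y) (hxy' : x' ≠ y')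
    (h1 : ordOf p e x y ↔ ordOf p e x' y')
    (h2 : ordOf p (fun x => - e x) x y ↔ ordOf p (fun x => - e x) x' y')
    (h3 : ordOf p (fun x => if p x = 0 then e x else - e x) x y ↔
      ordOf p (fun x => if p x = 0 then e x else - e x) x' y') :
    p x = p x' ∧ p y = p y' := by
  have n1 : e x ≠ e y := fun h => hxy (he h)
  have n2 : e x' ≠ e y' := fun h => hxy' (he h)
  unfold ordOf at h1 h2 h3
  rcases hp x with hx | hx <;> rcases hp y with hy | hy <;> rcases hp x' with hx' | hx' <;>
    rcases hp y' with hy' | hy' <;> simp [hx, hy, hx', hy'] at h1 h2 h3 ⊢ <;> omega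

/-- Covering property: `m` orders on `n` points such that every subset is the symmetric difference
of `m` initial segments, one for each order. -/
def Cov (n m : ℕ) : Prop :=
  ∃ κ : Fin m → Fin n → ℕ, ∀ x : Fin n → ZMod 2, ∃ t : Fin m → ℕ,
    ∀ j, (∑ i, if κ i j < t i then (1 : ZMod 2) else 0) = x j

end Pool.Agent.H828R3
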