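import Pool.Agent.H828R3.Square

set_option autoImplicit false

namespace Pool.Agent.H828R3

/-- sign of a residue mod 2 -/
noncomputable def psi (z : ZMod 2) : ℝ := if z = 0 then 1 else -1

theorem psi_add (a b : ZMod 2) : psi (a + b) = psi a * psi b := by
  rcases zmod2_cases a with h | h <;> rcases zmod2_cases b with h' | h' <;> subst h <;> subst h' <;>
    simp [psi]
  decide

theorem psi_sum {ι : Type} (s : Finset ι) (f : ι → ZMod 2) :
    psi (∑ i ∈ s, f i) = ∏ i ∈ s, psi (f i) := by
  classical
  induction s using Finset.induction_on with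
  | empty => simp [psi]
  | insert a s ha ih => rw [Finset.sum_insert ha, Finset.prod_insert ha, psi_add, ih]

theorem indic_eq (z : ZMod 2) : (if z = 0 then (1 : ℝ) else 0) = (1 + psi z) / 2 := by
  rcases zmod2_cases z with h | h <;> subst h <;> simp [psi]

/-- contribution of one coordinate -/
noncomputable def phi {N : ℕ} (a b m : Fin N) : ℝ :=
  psi ((if m < a then (1 : ZMod 2) else 0) + (if m < b then (1 : ZMod 2) else 0))

theorem phi_self {N : ℕ} (a m : Fin N) : phi a a m = 1 := by
  unfold phi
  by_cases h : m < a <;> simp [h, psi]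
  decide

theorem phi_le {N : ℕ} (a b m : Fin N) : phi a b m ≤ 1 ∧ -1 ≤ phi a b m := by
  unfold phi psi
  split_ifs <;> norm_num

theorem phi_sum {N : ℕ} (hN : 2 ≤ N) (a b : Fin N) (hab : a ≠ b) :
    |∑ m, phi a b m| ≤ (N : ℝ) - 2 := by
  classical
  -- a point with value -1 and a point with value 1
  let p : Fin N := min a b
  let q : Fin N := ⟨N - 1, by omega⟩
  have hp : phi a b p = -1 := by
    unfold phi
    rcases lt_or_gt_of_ne hab with h | h
    · have : p = a := min_eq_left h.le
      rw [this]
      simp [h, psi]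
    · have : p = b := min_eq_right h.le
      rw [this]
      simp [h, psi]
  have hq : phi a b q = 1 := by
    unfold phi
    have h1 : ¬ q < a := by
      rw [Fin.lt_def]; simp only [q]; omega
    have h2 : ¬ q < b := by
      rw [Fin.lt_def]; simp only [q]; omega
    simp [h1, h2, psi]
  have hpq : p ≠ q := by
    intro h
    rw [h, hq] at hp
    norm_num at hp
  have hsum : ∑ m, phi a b m = ∑ m ∈ (Finset.univ.erase p).erase q, phi a b m := by
    rw [← Finset.sum_erase_add _ _ (Finset.mem_univ p), hp]
    rw [← Finset.sum_erase_add _ _ (Finset.mem_erase.2 ⟨hpq.symm, Finset.mem_univ q⟩), hq]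
    ring
  rw [hsum]
  calc |∑ m ∈ (Finset.univ.erase p).erase q, phi a b m|
      ≤ ∑ m ∈ (Finset.univ.erase p).erase q, |phi a b m| := Finset.abs_sum_le_sum_abs _ _
    _ ≤ ∑ m ∈ (Finset.univ.erase p).erase q, (1 : ℝ) := by
        apply Finset.sum_le_sum
        intro m _
        rw [abs_le]
        exact ⟨(phi_le a b m).2, (phi_le a b m).1⟩
    _ = (N : ℝ) - 2 := by
        rw [Finset.sum_const, nsmul_eq_mul, mul_one,
          Finset.card_erase_of_mem (Finset.mem_erase.2 ⟨hpq.symm, Finset.mem_univ q⟩),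
          Finset.card_erase_of_mem (Finset.mem_univ p), Finset.card_univ, Fintype.card_fin]
        have : 2 ≤ N := hN
        rw [Nat.sub_sub]
        push_cast [Nat.cast_sub this]
        ring

/-- the parity vector at one point -/
def par {d N : ℕ} (μ t : Fin d → Fin N) : ZMod 2 := ∑ i, if μ i < t i then (1 : ZMod 2) else 0

/-- number of labels that do not distinguish `t` and `t'` -/
noncomputable def gg {d N : ℕ} (t t' : Fin d → Fin N) : ℕ :=
  (Finset.univ.filter (fun μ : Fin d → Fin N => par μ t = par μ t')).card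

theorem gg_bound {d N : ℕ} (hN : 2 ≤ N) (t t' : Fin d → Fin N) :
    (gg t t' : ℝ) ≤ (N : ℝ) ^ d *
      ((1 + (((N : ℝ) - 2) / N) ^ (Finset.univ.filter (fun i => t i ≠ t' i)).card) / 2) := by
  classical
  have hN0 : (0 : ℝ) < N := by
    have : 0 < N := by omega
    exact_mod_cast this
  have h1 : (gg t t' : ℝ) = ∑ μ : Fin d → Fin N, (if par μ t + par μ t' = 0 then (1 : ℝ) else 0) := by
    unfold gg
    rw [Finset.card_filter]
    push_cast
    apply Finset.sum_congr rfl
    intro μ _
    have : par μ t = par μ t' ↔ par μ t + par μ t' = 0 := by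
      rcases zmod2_cases (par μ t) with h | h <;> rcases zmod2_cases (par μ t') with h' | h' <;>
        rw [h, h'] <;> decide
    simp only [this]
  have h2 : ∀ μ : Fin d → Fin N, psi (par μ t + par μ t') = ∏ i, phi (t i) (t' i) (μ i) := by
    intro μ
    unfold par phi
    rw [← Finset.sum_add_distrib, psi_sum]
  have h3 : ∑ μ : Fin d → Fin N, ∏ i, phi (t i) (t' i) (μ i) =
      ∏ i, ∑ m, phi (t i) (t' i) m := by
    rw [Finset.prod_univ_sum, Fintype.piFinset_univ]
  have h4 : |∏ i, ∑ m, phi (t i) (t' i) m| ≤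
      (N : ℝ) ^ d * (((N : ℝ) - 2) / N) ^ (Finset.univ.filter (fun i => t i ≠ t' i)).card := by
    rw [Finset.abs_prod]
    have h5 : ∀ i, |∑ m, phi (t i) (t' i) m| ≤ (N : ℝ) * (if t i ≠ t' i then ((N : ℝ) - 2) / N else 1) := by
      intro i
      by_cases h : t i = t' i
      · rw [h]
        simp only [phi_self]
        simp
      · rw [if_pos h, mul_div_cancel₀ _ hN0.ne']
        exact phi_sum hN _ _ h
    calc ∏ i, |∑ m, phi (t i) (t' i) m|
        ≤ ∏ i, ((N : ℝ) * (if t i ≠ t' i then ((N : ℝ) - 2) / N else 1)) :=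
          Finset.prod_le_prod (fun i _ => abs_nonneg _) (fun i _ => h5 i)
      _ = _ := by
          rw [Finset.prod_mul_distrib, Finset.prod_const, Finset.card_univ, Fintype.card_fin]
          congr 1
          rw [Finset.prod_ite, Finset.prod_const, Finset.prod_const_one, mul_one]
  rw [h1]
  simp_rw [indic_eq, h2]
  rw [← Finset.sum_div, Finset.sum_add_distrib, h3]
  have h6 : ∑ _μ : Fin d → Fin N, (1 : ℝ) = (N : ℝ) ^ d := by simp
  rw [h6]
  have h7 := le_of_abs_le h4
  have : (N : ℝ) ^ d *
      ((1 + (((N : ℝ) - 2) / N) ^ (Finset.univ.filter (fun i => t i ≠ t' i)).card) / 2) =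
      ((N : ℝ) ^ d + (N : ℝ) ^ d * (((N : ℝ) - 2) / N) ^ (Finset.univ.filter (fun i => t i ≠ t' i)).card) / 2 := by
    ring
  rw [this]
  linarith

end Pool.Agent.H828R3
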