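import Pool.Agent.H828R3.Dense

set_option autoImplicit false

namespace Pool.Agent.H828R3

open Real

theorem rho_pow_le {N : ℕ} (hN : 2 ≤ N) (s : ℕ) :
    (((N : ℝ) - 2) / N) ^ s ≤ N / (N + 2 * s) := by
  have hN0 : (0 : ℝ) < N := by
    have : 0 < N := by omega
    exact_mod_cast this
  have hN2 : (2 : ℝ) ≤ N := by exact_mod_cast hN
  have h1 : (1 : ℝ) + s * (2 / N) ≤ (1 + 2 / N) ^ s :=
    one_add_mul_le_pow (by have : (0 : ℝ) ≤ 2 / N := by positivity
                           linarith) s
  have h2 : (((N : ℝ) - 2) / N) ^ s * (1 + 2 / N) ^ s ≤ 1 := by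
    rw [← mul_pow]
    apply pow_le_one₀
    · apply mul_nonneg
      · exact div_nonneg (by linarith) hN0.le
      · positivity
    · have : ((N : ℝ) - 2) / N * (1 + 2 / N) = 1 - 4 / N ^ 2 := by
        field_simp
        ring
      rw [this]
      have : (0 : ℝ) ≤ 4 / (N : ℝ) ^ 2 := by positivity
      linarith
  have h3 : (0 : ℝ) ≤ (((N : ℝ) - 2) / N) ^ s := pow_nonneg (div_nonneg (by linarith) hN0.le) s
  have h4 : (((N : ℝ) - 2) / N) ^ s * (1 + s * (2 / N)) ≤ 1 :=
    (mul_le_mul_of_nonneg_left h1 h3).trans h2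
  rw [le_div_iff₀ (by positivity)]
  have : (((N : ℝ) - 2) / N) ^ s * (N + 2 * s) =
      N * ((((N : ℝ) - 2) / N) ^ s * (1 + s * (2 / N))) := by
    field_simp
  rw [this]
  nlinarith

theorem pointwise {n d N L : ℕ} (hn : 1 ≤ n) (hN : 2 ≤ N) (hL : 1 ≤ L) (hd : 1 ≤ d)
    (hnL : n ≤ 2 ^ L)
    (hmain : 3 * (N : ℝ) * L * Real.log (2 * d * N) ≤ n) (s : ℕ) :
    ((1 + (((N : ℝ) - 2) / N) ^ s) / 2) ^ n ≤ (1 / (2 * d * N : ℝ)) ^ s + 3 / 2 ^ n := by
  have hN0 : (0 : ℝ) < N := by
    have : 0 < N := by omega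
    exact_mod_cast this
  have hN2 : (2 : ℝ) ≤ N := by exact_mod_cast hN
  have hd1 : (1 : ℝ) ≤ d := by exact_mod_cast hd
  have hL1 : (1 : ℝ) ≤ L := by exact_mod_cast hL
  have hn1 : (1 : ℝ) ≤ n := by exact_mod_cast hn
  have hw : (0 : ℝ) < 2 * d * N := by positivity
  have hρ0 : (0 : ℝ) ≤ ((N : ℝ) - 2) / N := div_nonneg (by linarith) hN0.le
  have hρ1 : ((N : ℝ) - 2) / N ≤ 1 := by rw [div_le_one hN0]; linarith
  by_cases hs : s ≤ N * L
  · -- small s
    have h1 := rho_pow_le hN s
    have hsR : (s : ℝ) ≤ N * L := by exact_mod_cast hs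
    have h2 : (1 + (((N : ℝ) - 2) / N) ^ s) / 2 ≤ 1 - s / (3 * N * L) := by
      have h3 : (1 + (((N : ℝ) - 2) / N) ^ s) / 2 ≤ 1 - s / (N + 2 * s) := by
        have : (1 : ℝ) - s / (N + 2 * s) = (1 + N / (N + 2 * s)) / 2 := by
          field_simp
          ring
        rw [this]
        linarith
      have h4 : (s : ℝ) / (3 * N * L) ≤ s / (N + 2 * s) := by
        apply div_le_div_of_nonneg_left (by positivity) (by positivity)
        nlinarith
      linarith
    have h5 : (1 + (((N : ℝ) - 2) / N) ^ s) / 2 ≤ Real.exp (-(s / (3 * N * L))) := by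
      have := Real.add_one_le_exp (-((s : ℝ) / (3 * N * L)))
      linarith
    have h6 : ((1 + (((N : ℝ) - 2) / N) ^ s) / 2) ^ n ≤ (1 / (2 * d * N : ℝ)) ^ s := by
      calc ((1 + (((N : ℝ) - 2) / N) ^ s) / 2) ^ n
          ≤ (Real.exp (-(s / (3 * N * L)))) ^ n :=
            pow_le_pow_left₀ (by positivity) h5 n
        _ = Real.exp (-(s * (n / (3 * N * L)))) := by
            rw [← Real.exp_nat_mul]
            congr 1
            ring
        _ ≤ Real.exp (-(s * Real.log (2 * d * N))) := by
            apply Real.exp_le_exp.2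
            apply neg_le_neg
            apply mul_le_mul_of_nonneg_left _ (by positivity)
            rw [le_div_iff₀ (by positivity)]
            linarith
        _ = (1 / (2 * d * N : ℝ)) ^ s := by
            rw [one_div, ← Real.exp_log (inv_pos.2 hw), ← Real.exp_nat_mul, Real.log_inv]
            congr 1
            ring
    have : (0 : ℝ) ≤ 3 / 2 ^ n := by positivity
    linarith
  · -- large s
    push Not at hs
    have h1 : (((N : ℝ) - 2) / N) ^ s ≤ 1 / n := by
      calc (((N : ℝ) - 2) / N) ^ s ≤ (((N : ℝ) - 2) / N) ^ (N * L) :=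
            pow_le_pow_of_le_one hρ0 hρ1 hs.le
        _ = ((((N : ℝ) - 2) / N) ^ N) ^ L := by rw [pow_mul]
        _ ≤ (1 / 2 : ℝ) ^ L := by
            apply pow_le_pow_left₀ (by positivity)
            have := rho_pow_le hN N
            have h2 : (N : ℝ) / (N + 2 * N) = 1 / 3 := by
              field_simp
              norm_num
            rw [h2] at this
            linarith
        _ ≤ 1 / n := by
            rw [div_pow, one_pow]
            apply one_div_le_one_div_of_le (by positivity)
            exact_mod_cast hnL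
    have h2 : ((1 + (((N : ℝ) - 2) / N) ^ s) / 2) ^ n ≤ 3 / 2 ^ n := by
      rw [div_pow]
      apply div_le_div_of_nonneg_right _ (by positivity)
      calc (1 + (((N : ℝ) - 2) / N) ^ s) ^ n ≤ (1 + 1 / n) ^ n := by
            apply pow_le_pow_left₀ (by positivity)
            linarith
        _ ≤ (Real.exp (1 / n)) ^ n := by
            apply pow_le_pow_left₀ (by positivity)
            have := Real.add_one_le_exp (1 / (n : ℝ))
            linarith
        _ = Real.exp 1 := by
            rw [← Real.exp_nat_mul]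
            congr 1
            field_simp
        _ ≤ 3 := by
            have := Real.exp_one_lt_d9
            linarith
    have : (0 : ℝ) ≤ (1 / (2 * d * N : ℝ)) ^ s := by positivity
    linarith

theorem sum_w {d N : ℕ} (hd : 1 ≤ d) (hN : 1 ≤ N) (t : Fin d → Fin N) :
    ∑ t' : Fin d → Fin N,
      (1 / (2 * d * N : ℝ)) ^ (Finset.univ.filter (fun i => t i ≠ t' i)).card ≤ 2 := by
  classical
  have hN0 : (1 : ℝ) ≤ N := by exact_mod_cast hN
  have hd1 : (1 : ℝ) ≤ d := by exact_mod_cast hd
  have h1 : ∀ t' : Fin d → Fin N,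
      (1 / (2 * d * N : ℝ)) ^ (Finset.univ.filter (fun i => t i ≠ t' i)).card =
        ∏ i, (if t i ≠ t' i then (1 / (2 * d * N : ℝ)) else 1) := by
    intro t'
    rw [Finset.prod_ite, Finset.prod_const, Finset.prod_const_one, mul_one]
  simp_rw [h1]
  have h2 : ∑ t' : Fin d → Fin N, ∏ i, (if t i ≠ t' i then (1 / (2 * d * N : ℝ)) else 1) =
      ∏ i, ∑ m : Fin N, (if t i ≠ m then (1 / (2 * d * N : ℝ)) else 1) := by
    rw [Finset.prod_univ_sum, Fintype.piFinset_univ]
  rw [h2]
  have h3 : ∀ i, ∑ m : Fin N, (if t i ≠ m then (1 / (2 * d * N : ℝ)) else 1) ≤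
      Real.exp (1 / (2 * d)) := by
    intro i
    have h4 : ∑ m : Fin N, (if t i ≠ m then (1 / (2 * d * N : ℝ)) else 1) ≤
        1 + N * (1 / (2 * d * N : ℝ)) := by
      rw [← Finset.add_sum_erase _ _ (Finset.mem_univ (t i))]
      simp only [ne_eq, not_true_eq_false, if_false]
      apply add_le_add_right
      calc ∑ m ∈ Finset.univ.erase (t i), (if ¬ t i = m then (1 / (2 * d * N : ℝ)) else 1)
          = ∑ m ∈ Finset.univ.erase (t i), (1 / (2 * d * N : ℝ)) := by
            apply Finset.sum_congr rfl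
            intro m hm
            rw [if_pos (Ne.symm (Finset.ne_of_mem_erase hm))]
        _ ≤ ∑ m : Fin N, (1 / (2 * d * N : ℝ)) := by
            apply Finset.sum_le_sum_of_subset_of_nonneg (Finset.erase_subset _ _)
            intro m _ _
            positivity
        _ = N * (1 / (2 * d * N : ℝ)) := by simp
    have h5 : (1 : ℝ) + N * (1 / (2 * d * N : ℝ)) = 1 / (2 * d) + 1 := by
      field_simp
      ring
    rw [h5] at h4
    exact h4.trans (Real.add_one_le_exp _)
  calc ∏ i, ∑ m : Fin N, (if t i ≠ m then (1 / (2 * d * N : ℝ)) else 1)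
      ≤ ∏ _i : Fin d, Real.exp (1 / (2 * d)) :=
        Finset.prod_le_prod (fun i _ => Finset.sum_nonneg (fun m _ => by positivity)) (fun i _ => h3 i)
    _ = Real.exp (1 / 2) := by
        rw [Finset.prod_const, Finset.card_univ, Fintype.card_fin, ← Real.exp_nat_mul]
        congr 1
        field_simp
    _ ≤ 2 := by
        have h6 : Real.exp (1 / 2) ^ 2 = Real.exp 1 := by
          rw [← Real.exp_nat_mul]; norm_num
        have h7 := Real.exp_one_lt_d9
        by_contra hcon
        push Not at hcon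
        nlinarith

end Pool.Agent.H828R3
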