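import Pool.Agent.H828R3.Dense2

set_option autoImplicit false

namespace Pool.Agent.H828R3

open Real

/-- the vector produced by the labels `lam` and thresholds `t` -/
def xv {n d N : ℕ} (lam : Fin n → Fin d → Fin N) (t : Fin d → Fin N) : Fin n → ZMod 2 :=
  fun j => par (lam j) t

/-- number of collisions -/
noncomputable def coll {n d N : ℕ} (lam : Fin n → Fin d → Fin N) : ℕ :=
  (Finset.univ.filter (fun p : (Fin d → Fin N) × (Fin d → Fin N) => xv lam p.1 = xv lam p.2)).card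

theorem sum_coll (n d N : ℕ) :
    ∑ lam : Fin n → Fin d → Fin N, (coll lam : ℝ) =
      ∑ t : Fin d → Fin N, ∑ t' : Fin d → Fin N, (gg t t' : ℝ) ^ n := by
  classical
  have h1 : ∀ lam : Fin n → Fin d → Fin N, (coll lam : ℝ) =
      ∑ t : Fin d → Fin N, ∑ t' : Fin d → Fin N, (if xv lam t = xv lam t' then (1 : ℝ) else 0) := by
    intro lam
    unfold coll
    rw [Finset.card_filter]
    push_cast
    rw [← Finset.univ_product_univ, Finset.sum_product]
  simp_rw [h1]
  rw [Finset.sum_comm]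
  apply Finset.sum_congr rfl
  intro t _
  rw [Finset.sum_comm]
  apply Finset.sum_congr rfl
  intro t' _
  have h2 : ∑ lam : Fin n → Fin d → Fin N, (if xv lam t = xv lam t' then (1 : ℝ) else 0) =
      ((Finset.univ.filter (fun lam : Fin n → Fin d → Fin N => xv lam t = xv lam t')).card : ℝ) := by
    rw [Finset.card_filter]
    push_cast
    rfl
  rw [h2]
  have h3 : (Finset.univ.filter (fun lam : Fin n → Fin d → Fin N => xv lam t = xv lam t')) =
      Fintype.piFinset (fun _ : Fin n =>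
        Finset.univ.filter (fun μ : Fin d → Fin N => par μ t = par μ t')) := by
    ext lam
    simp only [Finset.mem_filter, Finset.mem_univ, true_and, Fintype.mem_piFinset, xv]
    constructor
    · intro h j
      exact congrFun h j
    · intro h
      exact funext h
  rw [h3, Fintype.card_piFinset_const]
  unfold gg
  push_cast
  rfl

theorem sq_le_card_mul_coll {n d N : ℕ} (lam : Fin n → Fin d → Fin N) :
    ((N : ℝ) ^ d) ^ 2 ≤ ((Finset.univ.image (xv lam)).card : ℝ) * coll lam := by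
  classical
  let A := Finset.univ.image (xv lam)
  let F : (Fin n → ZMod 2) → ℝ := fun x => ((Finset.univ.filter (fun t => xv lam t = x)).card : ℝ)
  have h1 : ∑ x ∈ A, F x = (N : ℝ) ^ d := by
    have : (Finset.univ : Finset (Fin d → Fin N)).card =
        ∑ x ∈ A, (Finset.univ.filter (fun t => xv lam t = x)).card :=
      Finset.card_eq_sum_card_fiberwise (fun t _ => by simp [A])
    rw [Finset.card_univ] at this
    simp only [Fintype.card_pi, Fintype.card_fin, Finset.prod_const, Finset.card_univ] at this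
    have h2 : ((N ^ d : ℕ) : ℝ) = ∑ x ∈ A, F x := by
      rw [this]; push_cast; rfl
    rw [← h2]; push_cast; rfl
  have h2 : ∑ x ∈ A, F x ^ 2 = coll lam := by
    unfold coll
    rw [Finset.card_eq_sum_card_fiberwise (f := fun p => xv lam p.1) (t := A)
      (fun p _ => by simp [A])]
    push_cast
    apply Finset.sum_congr rfl
    intro x _
    simp only [F]
    rw [sq, ← Nat.cast_mul, ← Finset.card_product]
    congr 2
    ext p
    simp only [Finset.mem_product, Finset.mem_filter, Finset.mem_univ, true_and]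
    constructor
    · rintro ⟨h1, h2⟩
      exact ⟨by rw [h1, h2], h1⟩
    · rintro ⟨h1, h2⟩
      exact ⟨h2, by rw [← h1, h2]⟩
  rw [← h1, ← h2]
  exact sq_sum_le_card_mul_sum_sq

theorem exists_dense {n d N L : ℕ} (hn : 1 ≤ n) (hN : 2 ≤ N) (hL : 1 ≤ L) (hd : 1 ≤ d)
    (hnL : n ≤ 2 ^ L)
    (hmain : 3 * (N : ℝ) * L * Real.log (2 * d * N) ≤ n) (hNd : 2 ^ n ≤ N ^ d) :
    ∃ A : Finset (Fin n → ZMod 2), 2 ^ n ≤ 5 * A.card ∧ Reach n d A := by
  classical
  have hN0 : (0 : ℝ) < N := by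
    have : 0 < N := by omega
    exact_mod_cast this
  have hNd' : (2 : ℝ) ^ n ≤ (N : ℝ) ^ d := by exact_mod_cast hNd
  have h2n : (0 : ℝ) < 2 ^ n := by positivity
  have hNdpos : (0 : ℝ) < (N : ℝ) ^ d := by positivity
  -- average
  have havg : ∃ lam : Fin n → Fin d → Fin N, (coll lam : ℝ) ≤ 5 * ((N : ℝ) ^ d) ^ 2 / 2 ^ n := by
    by_contra hcon
    push Not at hcon
    have : Nonempty (Fin N) := ⟨⟨0, by omega⟩⟩
    have h1 : ∑ lam : Fin n → Fin d → Fin N, 5 * ((N : ℝ) ^ d) ^ 2 / 2 ^ n <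
        ∑ lam : Fin n → Fin d → Fin N, (coll lam : ℝ) :=
      Finset.sum_lt_sum_of_nonempty Finset.univ_nonempty (fun lam _ => hcon lam)
    rw [sum_coll] at h1
    have h2 : ∑ t : Fin d → Fin N, ∑ t' : Fin d → Fin N, (gg t t' : ℝ) ^ n ≤
        ∑ t : Fin d → Fin N, ((N : ℝ) ^ d) ^ n * (2 + 3 * (N : ℝ) ^ d / 2 ^ n) := by
      apply Finset.sum_le_sum
      intro t _
      calc ∑ t' : Fin d → Fin N, (gg t t' : ℝ) ^ n
          ≤ ∑ t' : Fin d → Fin N, ((N : ℝ) ^ d) ^ n *
              ((1 / (2 * d * N : ℝ)) ^ (Finset.univ.filter (fun i => t i ≠ t' i)).card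
                + 3 / 2 ^ n) := by
            apply Finset.sum_le_sum
            intro t' _
            calc (gg t t' : ℝ) ^ n ≤ ((N : ℝ) ^ d * ((1 + (((N : ℝ) - 2) / N) ^
                  (Finset.univ.filter (fun i => t i ≠ t' i)).card) / 2)) ^ n :=
                  pow_le_pow_left₀ (by positivity) (gg_bound hN t t') n
              _ = ((N : ℝ) ^ d) ^ n * ((1 + (((N : ℝ) - 2) / N) ^
                  (Finset.univ.filter (fun i => t i ≠ t' i)).card) / 2) ^ n := by rw [mul_pow]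
              _ ≤ _ := by
                  apply mul_le_mul_of_nonneg_left _ (by positivity)
                  exact pointwise hn hN hL hd hnL hmain _
        _ ≤ ((N : ℝ) ^ d) ^ n * (2 + 3 * (N : ℝ) ^ d / 2 ^ n) := by
            rw [← Finset.mul_sum, Finset.sum_add_distrib]
            apply mul_le_mul_of_nonneg_left _ (by positivity)
            have h3 := sum_w hd (by omega : 1 ≤ N) t
            have h4 : ∑ _t' : Fin d → Fin N, (3 : ℝ) / 2 ^ n = 3 * (N : ℝ) ^ d / 2 ^ n := by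
              rw [Finset.sum_const, Finset.card_univ]
              simp only [Fintype.card_pi, Fintype.card_fin, Finset.prod_const, Finset.card_univ,
                nsmul_eq_mul]
              push_cast
              ring
            rw [h4]
            linarith
    have h5 : ∑ t : Fin d → Fin N, ((N : ℝ) ^ d) ^ n * (2 + 3 * (N : ℝ) ^ d / 2 ^ n) =
        (N : ℝ) ^ d * (((N : ℝ) ^ d) ^ n * (2 + 3 * (N : ℝ) ^ d / 2 ^ n)) := by
      rw [Finset.sum_const, Finset.card_univ]
      simp only [Fintype.card_pi, Fintype.card_fin, Finset.prod_const, Finset.card_univ,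
        nsmul_eq_mul]
      push_cast
      ring
    have h6 : ∑ lam : Fin n → Fin d → Fin N, 5 * ((N : ℝ) ^ d) ^ 2 / 2 ^ n =
        ((N : ℝ) ^ d) ^ n * (5 * ((N : ℝ) ^ d) ^ 2 / 2 ^ n) := by
      rw [Finset.sum_const, Finset.card_univ]
      simp only [Fintype.card_pi, Fintype.card_fin, Finset.prod_const, Finset.card_univ,
        nsmul_eq_mul]
      push_cast
      ring
    rw [h6] at h1
    have h7 := h1.trans_le (h2.trans_eq h5)
    have h8 : (N : ℝ) ^ d * (((N : ℝ) ^ d) ^ n * (2 + 3 * (N : ℝ) ^ d / 2 ^ n)) ≤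
        ((N : ℝ) ^ d) ^ n * (5 * ((N : ℝ) ^ d) ^ 2 / 2 ^ n) := by
      have h9 : (N : ℝ) ^ d * (2 + 3 * (N : ℝ) ^ d / 2 ^ n) ≤ 5 * ((N : ℝ) ^ d) ^ 2 / 2 ^ n := by
        have h10 : (1 : ℝ) ≤ (N : ℝ) ^ d / 2 ^ n := by
          rw [le_div_iff₀ h2n]; linarith
        have h11 : 5 * ((N : ℝ) ^ d) ^ 2 / 2 ^ n = (N : ℝ) ^ d * (5 * ((N : ℝ) ^ d / 2 ^ n)) := by
          ring
        rw [h11]
        apply mul_le_mul_of_nonneg_left _ hNdpos.le
        have h12 : 3 * (N : ℝ) ^ d / 2 ^ n = 3 * ((N : ℝ) ^ d / 2 ^ n) := by ring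
        rw [h12]
        linarith
      calc (N : ℝ) ^ d * (((N : ℝ) ^ d) ^ n * (2 + 3 * (N : ℝ) ^ d / 2 ^ n))
          = ((N : ℝ) ^ d) ^ n * ((N : ℝ) ^ d * (2 + 3 * (N : ℝ) ^ d / 2 ^ n)) := by ring
        _ ≤ _ := mul_le_mul_of_nonneg_left h9 (by positivity)
    linarith
  obtain ⟨lam, hlam⟩ := havg
  refine ⟨Finset.univ.image (xv lam), ?_, ?_⟩
  · have h1 := sq_le_card_mul_coll lam
    have h2 : ((N : ℝ) ^ d) ^ 2 ≤
        ((Finset.univ.image (xv lam)).card : ℝ) * (5 * ((N : ℝ) ^ d) ^ 2 / 2 ^ n) :=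
      h1.trans (mul_le_mul_of_nonneg_left hlam (by positivity))
    have h3 : (0 : ℝ) < ((N : ℝ) ^ d) ^ 2 := by positivity
    have h4 : ((Finset.univ.image (xv lam)).card : ℝ) * (5 * ((N : ℝ) ^ d) ^ 2 / 2 ^ n) =
        (5 * ((Finset.univ.image (xv lam)).card : ℝ) / 2 ^ n) * ((N : ℝ) ^ d) ^ 2 := by ring
    rw [h4] at h2
    have h5 : (1 : ℝ) ≤ 5 * ((Finset.univ.image (xv lam)).card : ℝ) / 2 ^ n := by
      by_contra hcon
      push Not at hcon
      nlinarith
    rw [le_div_iff₀ h2n, one_mul] at h5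
    exact_mod_cast h5
  · refine ⟨fun i j => (lam j i : ℕ), ?_⟩
    intro x hx
    simp only [Finset.coe_image, Finset.coe_univ, Set.image_univ, Set.mem_range] at hx
    obtain ⟨t, ht⟩ := hx
    refine ⟨fun i => (t i : ℕ), fun j => ?_⟩
    rw [← ht]
    simp only [xv, par, Fin.lt_def]

theorem cov_exists {n d N L k : ℕ} (hn : 1 ≤ n) (hN : 2 ≤ N) (hL : 1 ≤ L) (hd : 1 ≤ d)
    (hnL : n ≤ 2 ^ L)
    (hmain : 3 * (N : ℝ) * L * Real.log (2 * d * N) ≤ n) (hNd : 2 ^ n ≤ N ^ d)
    (hk : 4 * n ≤ 2 ^ k) : Cov n (d + k) := by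
  obtain ⟨A, hA, hR⟩ := exists_dense hn hN hL hd hnL hmain hNd
  exact reach_full hn A hA hR hk

end Pool.Agent.H828R3
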