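import Pool.Agent.H828R3.Stack

set_option autoImplicit false

namespace Pool.Agent.H828R3

open Finset

/-- an `s`-element subset of `Fin (2 s)`, the code of a monotone map -/
abbrev Code (s : ℕ) : Type := {S : Finset (Fin (2 * s)) // S.card = s}

/-- the monotone map coded by `S` -/
def cut {s : ℕ} (S : Code s) (a : Fin s) : ℕ := (S.1.orderEmbOfFin S.2 a).val - a.val

theorem gap {s : ℕ} (e : Fin s → ℕ) (he : StrictMono e) :
    ∀ k : ℕ, ∀ a b : Fin s, b.val = a.val + k → e a + k ≤ e b := by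
  intro k
  induction k with
  | zero =>
    intro a b hab
    have : a = b := Fin.ext (by omega)
    subst this
    omega
  | succ k ih =>
    intro a b hab
    have hb := b.isLt
    let b' : Fin s := ⟨a.val + k, by omega⟩
    have h1 := ih a b' rfl
    have h2 : e b' < e b := he (by rw [Fin.lt_def]; show a.val + k < b.val; omega)
    omega

theorem code_strictMono {s : ℕ} (S : Code s) :
    StrictMono (fun a : Fin s => (S.1.orderEmbOfFin S.2 a).val) := by
  intro a b hab
  exact (S.1.orderEmbOfFin S.2).strictMono hab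

theorem le_code {s : ℕ} (S : Code s) (a : Fin s) : a.val ≤ (S.1.orderEmbOfFin S.2 a).val := by
  have ha := a.isLt
  have := gap _ (code_strictMono S) a.val ⟨0, by omega⟩ a (by simp)
  omega

theorem cut_le {s : ℕ} (S : Code s) (a : Fin s) : cut S a ≤ s := by
  have ha := a.isLt
  have h1 := gap _ (code_strictMono S) (s - 1 - a.val) a ⟨s - 1, by omega⟩ (by simp; omega)
  have h2 := (S.1.orderEmbOfFin S.2 ⟨s - 1, by omega⟩).isLt
  unfold cut
  omega

theorem cut_mono {s : ℕ} (S : Code s) {a b : Fin s} (hab : a ≤ b) : cut S a ≤ cut S b := by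
  have hab' : a.val ≤ b.val := hab
  have h1 := gap _ (code_strictMono S) (b.val - a.val) a b (by omega)
  unfold cut
  omega

theorem cut_inj {s : ℕ} (S S' : Code s) (h : ∀ a, cut S a = cut S' a) : S = S' := by
  have h1 : ∀ a, S.1.orderEmbOfFin S.2 a = S'.1.orderEmbOfFin S'.2 a := by
    intro a
    have h2 := h a
    have h3 := le_code S a
    have h4 := le_code S' a
    unfold cut at h2
    exact Fin.ext (by omega)
  apply Subtype.ext
  have h5 : (S.1 : Set (Fin (2 * s))) = S'.1 := by
    rw [← Finset.range_orderEmbOfFin S.1 S.2, ← Finset.range_orderEmbOfFin S'.1 S'.2]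
    congr 1
    funext a
    exact h1 a
  exact_mod_cast h5

/-- ground set of one block -/
abbrev X0 (w s R : ℕ) : Type := Fin (R + 1) × Fin w × Fin s

/-- parameters of one block -/
abbrev Sg (w s R : ℕ) : Type := {p : Fin R × Fin w × Fin w // p.2.1 ≠ p.2.2} → Code s

/-- the cut function of a block -/
def cf {w s R : ℕ} (σ : Sg w s R) (t : ℕ) (i j : Fin w) (a : Fin s) : ℕ :=
  if h : t < R ∧ i ≠ j then cut (σ ⟨(⟨t, h.1⟩, i, j), h.2⟩) a else 0

theorem cf_mono {w s R : ℕ} (σ : Sg w s R) (t : ℕ) (i j : Fin w) {a b : Fin s} (hab : a ≤ b) :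
    cf σ t i j a ≤ cf σ t i j b := by
  unfold cf
  split
  · exact cut_mono _ hab
  · exact le_refl _

/-- the strict order of one block -/
def rel {w s R : ℕ} (σ : Sg w s R) (x y : X0 w s R) : Prop :=
  (x.2.1 = y.2.1 ∧ (x.1.val < y.1.val ∨ (x.1.val = y.1.val ∧ x.2.2.val < y.2.2.val))) ∨
  (x.2.1 ≠ y.2.1 ∧ (x.1.val + 2 ≤ y.1.val ∨
    (x.1.val + 1 = y.1.val ∧ cf σ x.1.val x.2.1 y.2.1 x.2.2 ≤ y.2.2.val)))

theorem rel_irrefl {w s R : ℕ} (σ : Sg w s R) (x : X0 w s R) : ¬ rel σ x x := by
  unfold rel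
  rintro (⟨_, h⟩ | ⟨h, _⟩)
  · omega
  · exact h rfl

theorem rel_trans {w s R : ℕ} (σ : Sg w s R) (x y z : X0 w s R) (h1 : rel σ x y)
    (h2 : rel σ y z) : rel σ x z := by
  obtain ⟨t, i, a⟩ := x
  obtain ⟨t', j, b⟩ := y
  obtain ⟨t'', l, e⟩ := z
  unfold rel at *
  simp only at *
  rcases h1 with ⟨hij, h1⟩ | ⟨hij, h1⟩ <;> rcases h2 with ⟨hjl, h2⟩ | ⟨hjl, h2⟩
  · left
    subst hij hjl
    exact ⟨rfl, by omega⟩
  · right
    subst hij
    refine ⟨hjl, ?_⟩
    rcases h1 with h1 | ⟨h1, h1'⟩
    · left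
      omega
    · rcases h2 with h2 | ⟨h2, h2'⟩
      · left; omega
      · right
        refine ⟨by omega, ?_⟩
        have hab : a ≤ b := by rw [Fin.le_def]; omega
        have := cf_mono σ t.val i l hab
        rw [← h1] at h2'
        omega
  · right
    subst hjl
    refine ⟨hij, ?_⟩
    rcases h1 with h1 | ⟨h1, h1'⟩
    · left; omega
    · rcases h2 with h2 | ⟨h2, h2'⟩
      · left; omega
      · right
        refine ⟨by omega, ?_⟩
        omega
  · by_cases hil : i = l
    · left
      exact ⟨hil, by omega⟩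
    · right
      exact ⟨hil, by omega⟩

theorem rel_inj {w s R : ℕ} (σ σ' : Sg w s R) (h : ∀ x y, rel σ x y ↔ rel σ' x y) : σ = σ' := by
  funext p
  obtain ⟨⟨t, i, j⟩, hij⟩ := p
  simp only at hij
  apply cut_inj
  intro a
  have hb : ∀ b : Fin s, (cut (σ ⟨(t, i, j), hij⟩) a ≤ b.val ↔ cut (σ' ⟨(t, i, j), hij⟩) a ≤ b.val) := by
    intro b
    have ht := t.isLt
    have := h (⟨t.val, by omega⟩, i, a) (⟨t.val + 1, by omega⟩, j, b)
    unfold rel cf at this
    simp only [hij, false_and, ne_eq, not_false_eq_true, true_and, false_or, t.isLt, and_self,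
      dite_true] at this
    constructor
    · intro h1
      rcases this.1 (Or.inr h1) with h2 | h2
      · omega
      · exact h2
    · intro h1
      rcases this.2 (Or.inr h1) with h2 | h2
      · omega
      · exact h2
  have h1 := cut_le (σ ⟨(t, i, j), hij⟩) a
  have h2 := cut_le (σ' ⟨(t, i, j), hij⟩) a
  by_contra hne
  rcases Nat.lt_or_gt_of_ne hne with h3 | h3
  · have := (hb ⟨cut (σ ⟨(t, i, j), hij⟩) a, by omega⟩).1 (le_refl _)
    simp only at this
    omega
  · have := (hb ⟨cut (σ' ⟨(t, i, j), hij⟩) a, by omega⟩).2 (le_refl _)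
    simp only at this
    omega

theorem card_Code (s : ℕ) : Fintype.card (Code s) = Nat.centralBinom s := by
  have : Fintype.card (Code s) = (Finset.powersetCard s (univ : Finset (Fin (2 * s)))).card := by
    rw [Fintype.card_subtype]
    congr 1
    ext S
    simp [Finset.mem_powersetCard]
  rw [this, Finset.card_powersetCard, Finset.card_univ, Fintype.card_fin, Nat.centralBinom]

theorem card_Sg (w s R : ℕ) : Fintype.card (Sg w s R) = Nat.centralBinom s ^ (R * (w * w - w)) := by
  rw [Fintype.card_fun, card_Code]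
  congr 1
  have e : {p : Fin R × Fin w × Fin w // p.2.1 ≠ p.2.2} ≃
      Fin R × {q : Fin w × Fin w // q.1 ≠ q.2} :=
    { toFun := fun p => (p.1.1, ⟨p.1.2, p.2⟩)
      invFun := fun p => ⟨(p.1, p.2.1), p.2.2⟩
      left_inv := fun p => rfl
      right_inv := fun p => rfl }
  rw [Fintype.card_congr e, Fintype.card_prod, Fintype.card_fin]
  congr 1
  rw [Fintype.card_subtype]
  have := Finset.offDiag_card (univ : Finset (Fin w))
  rw [Finset.card_univ, Fintype.card_fin] at this
  rw [← this]
  congr 1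
  ext q
  simp [Finset.mem_offDiag]

end Pool.Agent.H828R3
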