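import Pool.Agent.H828R3.Basic

set_option autoImplicit false

namespace Pool.Agent.H828R3

/-- ground set of the extremal poset: all subsets of `Fin n` and the `n` points -/
inductive Ex (n : ℕ) : Type
  | a (s : Finset (Fin n)) : Ex n
  | b (j : Fin n) : Ex n
deriving DecidableEq

/-- `a s < b j` iff `j ∈ s` -/
def Ex.lt' {n : ℕ} : Ex n → Ex n → Prop
  | .a s, .b j => j ∈ s
  | _, _ => False

instance (n : ℕ) : PartialOrder (Ex n) where
  le x y := x = y ∨ Ex.lt' x y
  lt x y := Ex.lt' x y
  le_refl x := Or.inl rfl
  le_trans x y z := by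
    rintro (rfl | h1) (rfl | h2)
    · exact Or.inl rfl
    · exact Or.inr h2
    · exact Or.inr h1
    · cases x <;> cases y <;> cases z <;> simp [Ex.lt'] at h1 h2
  le_antisymm x y := by
    rintro (rfl | h1) (h2 | h2)
    · rfl
    · rfl
    · exact h2.symm
    · cases x <;> cases y <;> simp [Ex.lt'] at h1 h2
  lt_iff_le_not_ge x y := by
    constructor
    · intro h
      refine ⟨Or.inr h, ?_⟩
      rintro (rfl | h2)
      · cases y <;> simp [Ex.lt'] at h
      · cases x <;> cases y <;> simp [Ex.lt'] at h h2
    · rintro ⟨rfl | h, h2⟩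
      · exact absurd (Or.inl rfl) h2
      · exact h

theorem Ex.lt_iff {n : ℕ} (x y : Ex n) : x < y ↔ Ex.lt' x y := Iff.rfl

/-- the equivalence with a sum type -/
def Ex.equiv (n : ℕ) : Ex n ≃ (Finset (Fin n)) ⊕ Fin n where
  toFun
    | .a s => Sum.inl s
    | .b j => Sum.inr j
  invFun
    | Sum.inl s => .a s
    | Sum.inr j => .b j
  left_inv x := by cases x <;> rfl
  right_inv x := by cases x <;> rfl

instance (n : ℕ) : Fintype (Ex n) := Fintype.ofEquiv _ (Ex.equiv n).symm

/-- the `n` extra points -/
def Ex.B (n : ℕ) : Finset (Ex n) := Finset.univ.image Ex.b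

theorem Ex.B_card (n : ℕ) : (Ex.B n).card = n := by
  unfold Ex.B
  rw [Finset.card_image_of_injective]
  · simp
  · intro x y h
    cases h
    rfl

theorem Ex.anti (n : ℕ) : ∀ x y : Ex n, x ∉ Ex.B n → y ∉ Ex.B n → ¬ x < y := by
  intro x y hx hy h
  rw [Ex.lt_iff] at h
  cases x with
  | b j => simp [Ex.lt'] at h
  | a s =>
    cases y with
    | a t => simp [Ex.lt'] at h
    | b j => exact hy (by simp [Ex.B])

open Classical in
theorem lower (n d : ℕ) (h : HasBR (fun x y : Ex n => x < y) d) : 2 ^ n ≤ (n + 1) ^ d := by
  obtain ⟨L, τ, hL, hτ⟩ := h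
  let I : Finset (Fin n) → Fin d → Finset (Fin n) :=
    fun s i => Finset.univ.filter (fun j => L i (.b j) (.a s))
  let F : Finset (Fin n) → Fin d → Fin (n + 1) := fun s i =>
    ⟨(I s i).card, by
      have := Finset.card_le_univ (I s i)
      simp only [Fintype.card_fin] at this
      omega⟩
  have hnest : ∀ s s' i, I s i ⊆ I s' i ∨ I s' i ⊆ I s i := by
    intro s s' i
    have := hL i
    rcases trichotomous_of (L i) (Ex.a s) (Ex.a s') with h | h | h
    · left
      intro j hj
      simp only [I, Finset.mem_filter, Finset.mem_univ, true_and] at hj ⊢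
      exact trans_of (L i) hj h
    · left
      have : s = s' := by cases h; rfl
      subst this
      exact Finset.Subset.refl _
    · right
      intro j hj
      simp only [I, Finset.mem_filter, Finset.mem_univ, true_and] at hj ⊢
      exact trans_of (L i) hj h
  have hinj : Function.Injective F := by
    intro s s' hss
    have hI : ∀ i, I s i = I s' i := by
      intro i
      have hc : (I s i).card = (I s' i).card := by
        have := congrFun hss i
        exact congrArg Fin.val this
      rcases hnest s s' i with h | h
      · exact Finset.eq_of_subset_of_card_le h hc.ge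
      · exact (Finset.eq_of_subset_of_card_le h hc.le).symm
    ext j
    have key : ∀ i, L i (.a s) (.b j) ↔ L i (.a s') (.b j) := by
      intro i
      have := hL i
      have h1 : L i (.b j) (.a s) ↔ L i (.b j) (.a s') := by
        have := congrArg (fun T => j ∈ T) (hI i)
        simpa [I] using this
      have h2 : ∀ u : Finset (Fin n), L i (.a u) (.b j) ↔ ¬ L i (.b j) (.a u) := by
        intro u
        constructor
        · exact fun h h' => asymm_of (L i) h h'
        · intro h'
          rcases trichotomous_of (L i) (Ex.a u) (Ex.b j) with h | h | h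
          · exact h
          · cases h
          · exact absurd h h'
      rw [h2, h2, h1]
    have e1 := hτ (.a s) (.b j) (by intro h; cases h)
    have e2 := hτ (.a s') (.b j) (by intro h; cases h)
    have e3 : (fun i => L i (.a s) (.b j)) = (fun i => L i (.a s') (.b j)) :=
      funext fun i => propext (key i)
    rw [e3, ← e2] at e1
    simpa [Ex.lt_iff, Ex.lt'] using e1
  have := Fintype.card_le_of_injective F hinj
  simpa using this

end Pool.Agent.H828R3
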