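import Pool.Agent.H828R3.Basic

set_option autoImplicit false

namespace Pool.Agent.H828R3

/-- every element of `A` is a symmetric difference of `m` initial segments -/
def Reach (n m : ℕ) (A : Set (Fin n → ZMod 2)) : Prop :=
  ∃ κ : Fin m → Fin n → ℕ, ∀ x ∈ A, ∃ t : Fin m → ℕ,
    ∀ j, (∑ i, if κ i j < t i then (1 : ZMod 2) else 0) = x j

theorem zmod2_cases (a : ZMod 2) : a = 0 ∨ a = 1 := by
  revert a; decide

theorem Reach.step {n m : ℕ} {A : Set (Fin n → ZMod 2)} (h : Reach n m A)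
    (y : Fin n → ZMod 2) : Reach n (m + 1) {x | x ∈ A ∨ x + y ∈ A} := by
  obtain ⟨κ, hκ⟩ := h
  refine ⟨Fin.cons (fun j => if y j = 1 then 0 else 1) κ, ?_⟩
  rintro x (hx | hx)
  · obtain ⟨t, ht⟩ := hκ x hx
    refine ⟨Fin.cons 0 t, fun j => ?_⟩
    rw [Fin.sum_univ_succ]
    simp only [Fin.cons_zero, Fin.cons_succ, Nat.not_lt_zero, if_false, zero_add]
    exact ht j
  · obtain ⟨t, ht⟩ := hκ _ hx
    refine ⟨Fin.cons 1 t, fun j => ?_⟩
    rw [Fin.sum_univ_succ]
    simp only [Fin.cons_zero, Fin.cons_succ]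
    rw [ht j]
    simp only [Pi.add_apply]
    rcases zmod2_cases (y j) with h | h <;> rcases zmod2_cases (x j) with h' | h' <;>
      rw [h, h'] <;> decide

theorem exists_square {n : ℕ} (A : Finset (Fin n → ZMod 2)) :
    ∃ y : Fin n → ZMod 2,
      2 ^ n * (Finset.univ.filter (fun x => x ∉ A ∧ x + y ∉ A)).card ≤ (Aᶜ).card ^ 2 := by
  classical
  by_contra hcon
  push Not at hcon
  have h1 : ∑ y : Fin n → ZMod 2, (Finset.univ.filter (fun x => x ∉ A ∧ x + y ∉ A)).card =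
      (Aᶜ).card ^ 2 := by
    have : ∀ y : Fin n → ZMod 2, (Finset.univ.filter (fun x => x ∉ A ∧ x + y ∉ A)).card =
        ∑ x : Fin n → ZMod 2, if x ∉ A ∧ x + y ∉ A then 1 else 0 := by
      intro y
      rw [Finset.card_filter]
    simp_rw [this]
    rw [Finset.sum_comm]
    have h2 : ∀ x : Fin n → ZMod 2, (∑ y : Fin n → ZMod 2, if x ∉ A ∧ x + y ∉ A then 1 else 0) =
        if x ∉ A then (Aᶜ).card else 0 := by
      intro x
      by_cases hx : x ∉ A
      · simp only [hx, not_false_eq_true, true_and, if_true]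
        rw [← Finset.card_filter]
        apply Finset.card_bij (fun y _ => x + y)
        · intro y hy
          simpa using hy
        · intro y _ y' _ h
          exact add_left_cancel h
        · intro z hz
          refine ⟨z - x, ?_, by simp⟩
          simpa using hz
      · simp [hx]
    simp_rw [h2]
    rw [← Finset.sum_filter, Finset.sum_const, smul_eq_mul, sq]
    congr 2
    ext x
    simp
  have h3 : ∑ y : Fin n → ZMod 2, (Aᶜ).card ^ 2 <
      ∑ y : Fin n → ZMod 2, 2 ^ n * (Finset.univ.filter (fun x => x ∉ A ∧ x + y ∉ A)).card :=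
    Finset.sum_lt_sum_of_nonempty ⟨0, Finset.mem_univ _⟩ (fun y _ => hcon y)
  rw [← Finset.mul_sum, h1, Finset.sum_const, smul_eq_mul, Finset.card_univ] at h3
  simp at h3

theorem iterate_square {n m : ℕ} (A : Finset (Fin n → ZMod 2)) (hR : Reach n m A) (k : ℕ) :
    ∃ A' : Finset (Fin n → ZMod 2), Reach n (m + k) A' ∧
      ((A'ᶜ).card : ℝ) / 2 ^ n ≤ (((Aᶜ).card : ℝ) / 2 ^ n) ^ (2 ^ k) := by
  classical
  induction k with
  | zero => exact ⟨A, hR, by simp⟩
  | succ k ih =>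
    obtain ⟨A', hA', hc⟩ := ih
    obtain ⟨y, hy⟩ := exists_square A'
    refine ⟨Finset.univ.filter (fun x => x ∈ A' ∨ x + y ∈ A'), ?_, ?_⟩
    · have := hA'.step y
      have e : ((Finset.univ.filter (fun x => x ∈ A' ∨ x + y ∈ A') : Finset (Fin n → ZMod 2)) :
          Set (Fin n → ZMod 2)) = {x | x ∈ (A' : Set (Fin n → ZMod 2)) ∨
            x + y ∈ (A' : Set (Fin n → ZMod 2))} := by
        ext x; simp
      rw [e]
      exact this
    · have e : (Finset.univ.filter (fun x => x ∈ A' ∨ x + y ∈ A'))ᶜ =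
          Finset.univ.filter (fun x => x ∉ A' ∧ x + y ∉ A') := by
        ext x; simp
      rw [e]
      have h2 : (2 : ℝ) ^ n * ((Finset.univ.filter (fun x => x ∉ A' ∧ x + y ∉ A')).card : ℝ) ≤
          ((A'ᶜ).card : ℝ) ^ 2 := by exact_mod_cast hy
      have h3 : (0 : ℝ) < 2 ^ n := by positivity
      calc ((Finset.univ.filter (fun x => x ∉ A' ∧ x + y ∉ A')).card : ℝ) / 2 ^ n
          ≤ (((A'ᶜ).card : ℝ) / 2 ^ n) ^ 2 := by
            rw [div_pow, div_le_div_iff₀ h3 (by positivity)]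
            nlinarith
        _ ≤ ((((Aᶜ).card : ℝ) / 2 ^ n) ^ (2 ^ k)) ^ 2 := by
            apply pow_le_pow_left₀ (by positivity) hc
        _ = _ := by rw [← pow_mul, pow_succ]

theorem reach_full {n m k : ℕ} (hn : 1 ≤ n) (A : Finset (Fin n → ZMod 2))
    (hA : 2 ^ n ≤ 5 * A.card) (hR : Reach n m A) (hk : 4 * n ≤ 2 ^ k) : Cov n (m + k) := by
  classical
  obtain ⟨A', hA', hc⟩ := iterate_square A hR k
  have h3 : (0 : ℝ) < 2 ^ n := by positivity
  have hcard : (Aᶜ).card + A.card = 2 ^ n := by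
    rw [add_comm, Finset.card_add_card_compl]; simp
  have h1 : ((Aᶜ).card : ℝ) / 2 ^ n ≤ 4 / 5 := by
    rw [div_le_div_iff₀ h3 (by norm_num)]
    have h4 : ((Aᶜ).card : ℝ) + A.card = 2 ^ n := by exact_mod_cast hcard
    have h5 : (2 : ℝ) ^ n ≤ 5 * A.card := by exact_mod_cast hA
    linarith
  have h2 : (((Aᶜ).card : ℝ) / 2 ^ n) ^ (2 ^ k) < 1 / 2 ^ n := by
    calc (((Aᶜ).card : ℝ) / 2 ^ n) ^ (2 ^ k) ≤ (4 / 5 : ℝ) ^ (2 ^ k) :=
          pow_le_pow_left₀ (by positivity) h1 _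
      _ ≤ (4 / 5 : ℝ) ^ (4 * n) := pow_le_pow_of_le_one (by norm_num) (by norm_num) hk
      _ = ((4 / 5 : ℝ) ^ 4) ^ n := by rw [pow_mul]
      _ < (1 / 2 : ℝ) ^ n := by
          apply pow_lt_pow_left₀ (by norm_num) (by norm_num) (by omega)
      _ = 1 / 2 ^ n := by rw [div_pow, one_pow]
  have h5 : ((A'ᶜ).card : ℝ) < 1 := by
    have := hc.trans_lt h2
    rwa [div_lt_div_iff_of_pos_right h3] at this
  have h6 : (A'ᶜ).card = 0 := by
    have : (A'ᶜ).card < 1 := by exact_mod_cast h5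
    omega
  have h7 : A' = Finset.univ := by
    rw [Finset.card_eq_zero] at h6
    rwa [Finset.compl_eq_empty_iff] at h6
  obtain ⟨κ, hκ⟩ := hA'
  exact ⟨κ, fun x => hκ x (by rw [h7]; simp)⟩

end Pool.Agent.H828R3
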