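import Pool.Agent.H828R3.Basic

set_option autoImplicit false

namespace Pool.Agent.H828R3

open Finset

/-- rank in a strict total order -/
noncomputable def rk {X : Type} [Fintype X] (L : X → X → Prop) (x : X) : ℕ := by
  classical exact (univ.filter fun z => L z x).card

theorem rk_lt_card {X : Type} [Fintype X] (L : X → X → Prop) (hL : IsStrictTotalOrder X L) (x : X) :
    rk L x < Fintype.card X := by
  classical
  unfold rk
  apply Finset.card_lt_card
  rw [Finset.ssubset_univ_iff]
  intro h
  have hx : x ∈ univ.filter fun z => L z x := by rw [h]; exact mem_univ x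
  rw [mem_filter] at hx
  exact hL.toIsStrictOrder.toIrrefl.irrefl x hx.2

theorem rk_lt_iff {X : Type} [Fintype X] (L : X → X → Prop) (hL : IsStrictTotalOrder X L) (x y : X) :
    L x y ↔ rk L x < rk L y := by
  classical
  have key : ∀ x y, L x y → rk L x < rk L y := by
    intro x y hxy
    unfold rk
    apply Finset.card_lt_card
    rw [Finset.ssubset_iff_of_subset]
    · refine ⟨x, by simp [hxy], ?_⟩
      simp only [mem_filter, mem_univ, true_and]
      exact hL.toIsStrictOrder.toIrrefl.irrefl x
    · intro z hz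
      simp only [mem_filter, mem_univ, true_and] at hz ⊢
      exact hL.toIsStrictOrder.toIsTrans.trans z x y hz hxy
  refine ⟨key x y, fun h => ?_⟩
  by_contra hxy
  by_cases hyx : L y x
  · have := key y x hyx
    omega
  · have : x = y := hL.toTrichotomous.trichotomous x y hxy hyx
    subst this
    omega

theorem count {X0 Sg : Type} [Fintype X0] [Fintype Sg] (rel : Sg → X0 → X0 → Prop)
    (hirr : ∀ σ x, ¬ rel σ x x)
    (hinj : ∀ σ σ', (∀ x y, rel σ x y ↔ rel σ' x y) → σ = σ') (n : ℕ) (e : Fin n ≃ Sg) (d : ℕ)
    (h : HasBR (fun p q : Fin n × X0 => p.1 < q.1 ∨ (p.1 = q.1 ∧ rel (e p.1) p.2 q.2)) d) :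
    Fintype.card Sg ≤ (Fintype.card X0 ^ Fintype.card X0) ^ d := by
  classical
  obtain ⟨L, τ, hL, hτ⟩ := h
  have hL' : ∀ (σ : Sg) (k : Fin d), IsStrictTotalOrder X0 (fun x y => L k (e.symm σ, x) (e.symm σ, y)) := by
    intro σ k
    have := hL k
    exact
      { trichotomous := by
          intro x y hxy hyx
          have := (hL k).toTrichotomous.trichotomous (e.symm σ, x) (e.symm σ, y) hxy hyx
          exact (Prod.mk.inj this).2
        irrefl := fun x => (hL k).toIsStrictOrder.toIrrefl.irrefl _
        trans := fun x y z h1 h2 => (hL k).toIsStrictOrder.toIsTrans.trans _ _ _ h1 h2 }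
  let Φ : Sg → (Fin d → X0 → Fin (Fintype.card X0)) := fun σ k x =>
    ⟨rk (fun x y => L k (e.symm σ, x) (e.symm σ, y)) x, rk_lt_card _ (hL' σ k) x⟩
  have hΦ : Function.Injective Φ := by
    intro σ σ' hσ
    apply hinj
    intro x y
    by_cases hxy : x = y
    · subst hxy
      exact ⟨fun h => absurd h (hirr _ _), fun h => absurd h (hirr _ _)⟩
    have hk : ∀ k x, rk (fun x y => L k (e.symm σ, x) (e.symm σ, y)) x =
        rk (fun x y => L k (e.symm σ', x) (e.symm σ', y)) x := by
      intro k x
      have := congrFun (congrFun hσ k) x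
      exact congrArg Fin.val this
    have hq : ∀ k, L k (e.symm σ, x) (e.symm σ, y) ↔ L k (e.symm σ', x) (e.symm σ', y) := by
      intro k
      have h1 := rk_lt_iff _ (hL' σ k) x y
      have h2 := rk_lt_iff _ (hL' σ' k) x y
      rw [h1, h2, hk, hk]
    have h1 := hτ (e.symm σ, x) (e.symm σ, y) (fun h => hxy (Prod.mk.inj h).2)
    have h2 := hτ (e.symm σ', x) (e.symm σ', y) (fun h => hxy (Prod.mk.inj h).2)
    simp only [lt_self_iff_false, false_or, true_and, Equiv.apply_symm_apply] at h1 h2
    rw [h1, h2]
    have : (fun i => L i (e.symm σ, x) (e.symm σ, y)) = fun i => L i (e.symm σ', x) (e.symm σ', y) := by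
      funext k
      exact propext (hq k)
    rw [this]
  have := Fintype.card_le_of_injective Φ hΦ
  simpa [Fintype.card_fun, Fintype.card_pi] using this

end Pool.Agent.H828R3
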