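import Pool.Agent.H828R3.Basic

set_option autoImplicit false

namespace Pool.Agent.H828R3

open Classical in
/-- the main upper bound -/
theorem upper {X : Type} [Fintype X] [PartialOrder X] (B : Finset X) (n m b : ℕ)
    (hB : B.card = n) (hA : ∀ x y : X, x ∉ B → y ∉ B → ¬ x < y)
    (hcov : Cov n m) (hb : n + 1 ≤ 2 ^ b) :
    HasBR (fun x y : X => x < y) (m + (1 + b * 3)) := by
  obtain ⟨κ, hκ⟩ := hcov
  -- enumeration of everything
  obtain ⟨e0⟩ : Nonempty (X ≃ Fin (Fintype.card X)) := ⟨Fintype.equivFin X⟩
  let e : X → ℤ := fun x => ((e0 x : ℕ) : ℤ)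
  have he : Function.Injective e := by
    intro x y h
    have h' : ((e0 x : ℕ) : ℤ) = ((e0 y : ℕ) : ℤ) := h
    exact e0.injective (Fin.ext (by exact_mod_cast h'))
  -- indices of B
  let g : B ≃ Fin n := B.equivFin.trans (finCongr hB)
  -- labels
  let ℓ : X → ℕ := fun x => if h : x ∈ B then (g ⟨x, h⟩ : ℕ) + 1 else 0
  have hℓ0 : ∀ x, x ∉ B → ℓ x = 0 := fun x hx => by simp [ℓ, hx]
  have hℓ1 : ∀ x, x ∈ B → ℓ x ≠ 0 := fun x hx => by simp [ℓ, hx]
  have hℓlt : ∀ x, ℓ x < 2 ^ b := by
    intro x
    by_cases hx : x ∈ B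
    · have := (g ⟨x, hx⟩).isLt
      simp only [ℓ, hx, dif_pos]
      omega
    · rw [hℓ0 x hx]; positivity
  have hℓinj : ∀ x y, x ∈ B → ℓ x = ℓ y → x = y := by
    intro x y hx hxy
    by_cases hy : y ∈ B
    · simp only [ℓ, hx, hy, dif_pos, Nat.add_right_cancel_iff] at hxy
      have := g.injective (Fin.ext hxy)
      exact congrArg Subtype.val this
    · rw [hℓ0 y hy] at hxy
      exact absurd hxy (hℓ1 x hx)
  -- the height function
  let σ : X → ℕ := fun x => (Finset.univ.filter (fun y => y < x)).card
  have hσ : ∀ x y : X, x < y → σ x < σ y := by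
    intro x y hxy
    apply Finset.card_lt_card
    rw [Finset.ssubset_iff_of_subset]
    · exact ⟨x, by simp [hxy], by simp⟩
    · intro z hz
      simp only [Finset.mem_filter, Finset.mem_univ, true_and] at hz ⊢
      exact hz.trans hxy
  let c : X → ℕ := fun a => (B.filter (fun z => z < a)).sup (fun z => σ z + 1)
  have hc1 : ∀ a z, z ∈ B → z < a → σ z < c a := by
    intro a z hz hza
    have : σ z + 1 ≤ c a := Finset.le_sup (f := fun z => σ z + 1) (by simp [hz, hza])
    omega
  have hc2 : ∀ a z, z ∈ B → a < z → ¬ σ z < c a := by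
    intro a z hz haz hlt
    have : c a ≤ σ z := by
      apply Finset.sup_le
      intro y hy
      simp only [Finset.mem_filter] at hy
      exact hσ _ _ (hy.2.trans haz)
    omega
  -- the comparability vectors
  have hκ' : ∀ a : X, ∃ t : Fin m → ℕ, ∀ j : Fin n,
      (∑ i, if κ i j < t i then (1 : ZMod 2) else 0) =
        if ((g.symm j : X) < a ∨ a < (g.symm j : X)) then 1 else 0 := fun a => hκ _
  choose t ht using hκ'
  -- the keys
  let Kσ : X → ℤ := fun x => if x ∈ B then 2 * (σ x : ℤ) + 1 else 2 * (c x : ℤ)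
  let Kκ : Fin m → X → ℤ := fun i x =>
    if h : x ∈ B then 2 * (κ i (g ⟨x, h⟩) : ℤ) + 1 else 2 * (t x i : ℤ)
  let bit : Fin b → X → ℤ := fun l x => if (ℓ x).testBit l then 1 else 0
  have hbit : ∀ l x, bit l x = 0 ∨ bit l x = 1 := by
    intro l x
    by_cases h : (ℓ x).testBit l <;> simp [bit, h]
  let L : (Fin m ⊕ (Unit ⊕ (Fin b × Fin 3))) → X → X → Prop := fun i =>
    match i with
    | Sum.inl i => ordOf (Kκ i) e
    | Sum.inr (Sum.inl _) => ordOf Kσ e
    | Sum.inr (Sum.inr (l, 0)) => ordOf (bit l) e
    | Sum.inr (Sum.inr (l, 1)) => ordOf (bit l) (fun x => - e x)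
    | Sum.inr (Sum.inr (l, 2)) => ordOf (bit l) (fun x => if bit l x = 0 then e x else - e x)
  have hcard : Fintype.card (Fin m ⊕ (Unit ⊕ (Fin b × Fin 3))) = m + (1 + b * 3) := by simp
  rw [← hcard]
  apply hasBR_of_determined _ L
  · rintro (i | i | ⟨l, k⟩)
    · exact ordOf_total _ _ (fun x y _ h => he h)
    · exact ordOf_total _ _ (fun x y _ h => he h)
    · fin_cases k
      · exact ordOf_total _ _ (fun x y _ h => he h)
      · exact ordOf_total _ _ (fun x y _ h => he (neg_injective h))
      · refine ordOf_total _ _ (fun x y h1 h => ?_)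
        simp only [h1] at h
        by_cases h2 : bit l y = 0
        · simp only [h2, if_true] at h
          exact he h
        · simp only [h2, if_false] at h
          exact he (neg_injective h)
  · intro x y x' y' hxy hxy' hq hlt
    -- labels agree
    have hlab : ℓ x = ℓ x' ∧ ℓ y = ℓ y' := by
      have key : ∀ l : Fin b, bit l x = bit l x' ∧ bit l y = bit l y' := fun l =>
        bits_lemma (bit l) e he (hbit l) hxy hxy' (hq (Sum.inr (Sum.inr (l, 0))))
          (hq (Sum.inr (Sum.inr (l, 1)))) (hq (Sum.inr (Sum.inr (l, 2))))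
      have aux : ∀ u v : X, (∀ l : Fin b, bit l u = bit l v) → ℓ u = ℓ v := by
        intro u v h
        apply Nat.eq_of_testBit_eq
        intro l
        by_cases hl : l < b
        · have h0 : (if (ℓ u).testBit l = true then (1 : ℤ) else 0) =
              (if (ℓ v).testBit l = true then (1 : ℤ) else 0) := h ⟨l, hl⟩
          cases h1 : (ℓ u).testBit l <;> cases h2 : (ℓ v).testBit l <;>
            simp [h1, h2] at h0 ⊢
        · rw [Nat.testBit_lt_two_pow ((hℓlt u).trans_le (Nat.pow_le_pow_right (by norm_num) (by omega))),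
            Nat.testBit_lt_two_pow ((hℓlt v).trans_le (Nat.pow_le_pow_right (by norm_num) (by omega)))]
      exact ⟨aux _ _ (fun l => (key l).1), aux _ _ (fun l => (key l).2)⟩
    by_cases hx : x ∈ B
    · have e1 : x = x' := hℓinj _ _ hx hlab.1
      subst e1
      by_cases hy : y ∈ B
      · have e2 : y = y' := hℓinj _ _ hy hlab.2
        subst e2
        exact hlt
      · -- x ∈ B, y ∉ B
        have hy' : y' ∉ B := by
          intro h
          apply hy
          rw [← hℓinj _ _ h hlab.2.symm]
          exact h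
        have hs : σ x < c y' := by
          have h1 := hc1 y x hx hlt
          have h2 := hq (Sum.inr (Sum.inl ()))
          simp only [L, ordOf, Kσ, hx, hy, hy', if_true, if_false] at h2
          omega
        have hp : (∑ i, if κ i (g ⟨x, hx⟩) < t y i then (1 : ZMod 2) else 0) =
            ∑ i, if κ i (g ⟨x, hx⟩) < t y' i then (1 : ZMod 2) else 0 := by
          apply Finset.sum_congr rfl
          intro i _
          have h2 := hq (Sum.inl i)
          simp only [L, ordOf, Kκ, hx, hy, hy', dif_pos, dif_neg, not_false_eq_true] at h2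
          have : (κ i (g ⟨x, hx⟩) < t y i) ↔ (κ i (g ⟨x, hx⟩) < t y' i) := by omega
          simp only [this]
        rw [ht y, ht y'] at hp
        simp only [Equiv.symm_apply_apply] at hp
        rw [if_pos (Or.inl hlt)] at hp
        by_cases h3 : (x < y' ∨ y' < x)
        · rcases h3 with h3 | h3
          · exact h3
          · exact absurd hs (hc2 y' x hx h3)
        · rw [if_neg h3] at hp
          exact absurd hp one_ne_zero
    · have hx' : x' ∉ B := by
        intro h
        apply hx
        rw [← hℓinj _ _ h hlab.1.symm]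
        exact h
      by_cases hy : y ∈ B
      · have e2 : y = y' := hℓinj _ _ hy hlab.2
        subst e2
        have hs : ¬ σ y < c x' := by
          have h1 := hc2 x y hy hlt
          have h2 := hq (Sum.inr (Sum.inl ()))
          simp only [L, ordOf, Kσ, hx, hy, hx', if_true, if_false] at h2
          omega
        have hp : (∑ i, if κ i (g ⟨y, hy⟩) < t x i then (1 : ZMod 2) else 0) =
            ∑ i, if κ i (g ⟨y, hy⟩) < t x' i then (1 : ZMod 2) else 0 := by
          apply Finset.sum_congr rfl
          intro i _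
          have h2 := hq (Sum.inl i)
          simp only [L, ordOf, Kκ, hx, hy, hx', dif_pos, dif_neg, not_false_eq_true] at h2
          have : (κ i (g ⟨y, hy⟩) < t x i) ↔ (κ i (g ⟨y, hy⟩) < t x' i) := by omega
          simp only [this]
        rw [ht x, ht x'] at hp
        simp only [Equiv.symm_apply_apply] at hp
        rw [if_pos (Or.inr hlt)] at hp
        by_cases h3 : (y < x' ∨ x' < y)
        · rcases h3 with h3 | h3
          · exact absurd (hc1 x' y hy h3) hs
          · exact h3
        · rw [if_neg h3] at hp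
          exact absurd hp one_ne_zero
      · exact absurd hlt (hA x y hx hy)

end Pool.Agent.H828R3
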