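import Mathlib

set_option autoImplicit false

namespace Pool.Agent.H828R3

open Real Filter

theorem exists_K {ε : ℝ} (hε : 0 < ε) :
    ∃ K : ℕ, 1 ≤ K ∧ (2 - ε / 2) * (K + 1) ≤ Real.logb 2 (Nat.centralBinom K) := by
  have h := Real.isLittleO_log_id_atTop.bound (show (0 : ℝ) < ε / 8 by positivity)
  have h' := tendsto_natCast_atTop_atTop.eventually h
  obtain ⟨K, hK1, hK2, hK3⟩ := (h'.and ((eventually_ge_atTop 1).and
    (tendsto_natCast_atTop_atTop.eventually (eventually_ge_atTop (16 / ε))))).exists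
  refine ⟨K, hK2, ?_⟩
  have hK0 : (0 : ℝ) < K := by exact_mod_cast hK2
  have hKge1 : (1 : ℝ) ≤ K := by exact_mod_cast hK2
  simp only [Real.norm_eq_abs, id] at hK1
  have hnn : |(K : ℝ)| = K := abs_of_nonneg hK0.le
  rw [hnn, abs_of_nonneg (Real.log_nonneg hKge1)] at hK1
  have h4 : (4 : ℝ) ^ K ≤ 2 * K * Nat.centralBinom K := by
    exact_mod_cast Nat.four_pow_le_two_mul_self_mul_centralBinom K hK2
  have hcb : (0 : ℝ) < Nat.centralBinom K := by exact_mod_cast Nat.centralBinom_pos K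
  have h5 : Real.logb 2 ((4 : ℝ) ^ K) ≤ Real.logb 2 (2 * K * Nat.centralBinom K) :=
    Real.logb_le_logb_of_le (by norm_num) (by positivity) h4
  have h6 : Real.logb 2 (4 : ℝ) = 2 := by
    rw [show (4 : ℝ) = 2 ^ (2 : ℕ) by norm_num, Real.logb_pow, Real.logb_self_eq_one (by norm_num)]
    norm_num
  rw [Real.logb_pow, h6, Real.logb_mul (by positivity) hcb.ne', Real.logb_mul (by norm_num) hK0.ne',
    Real.logb_self_eq_one (by norm_num)] at h5
  have hl2 := Real.log_two_gt_d9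
  have h7 : Real.logb 2 K ≤ 2 * Real.log K := by
    rw [Real.logb, div_le_iff₀ (by linarith)]
    have := Real.log_nonneg hKge1
    nlinarith
  have h8 : 16 ≤ ε * K := by
    rw [div_le_iff₀ hε] at hK3
    linarith
  have h9 : 2 * Real.log K ≤ ε * K / 4 := by linarith
  nlinarith

theorem width_numeric {ε : ℝ} (hε : 0 < ε) (_hε1 : ε ≤ 1) :
    ∃ K : ℕ, 1 ≤ K ∧ ∀ᶠ w : ℕ in atTop, ∀ d : ℕ,
      Nat.centralBinom K ^ (K * (w * w - w)) ≤ (((K + 1) * (w * K)) ^ ((K + 1) * (w * K))) ^ d →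
        (2 - ε) * (w / Real.logb 2 w) ≤ d := by
  obtain ⟨K, hK1, hK⟩ := exists_K hε
  refine ⟨K, hK1, ?_⟩
  have hK0 : (0 : ℝ) < K := by exact_mod_cast hK1
  set C := Real.logb 2 (((K : ℝ) + 1) * K) with hC
  have hlogb : Tendsto (fun n : ℕ => Real.logb 2 (n : ℝ)) atTop atTop :=
    (Real.tendsto_logb_atTop (by norm_num)).comp tendsto_natCast_atTop_atTop
  filter_upwards [eventually_ge_atTop 2, hlogb.eventually_ge_atTop (8 * C / ε),
    hlogb.eventually_ge_atTop 1,
    tendsto_natCast_atTop_atTop.eventually (eventually_ge_atTop (8 / ε))] with w hw hx hx1 hw2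
  intro d hd
  set x := Real.logb 2 (w : ℝ) with hxdef
  have hw0 : (0 : ℝ) < w := by positivity
  have hw1 : (2 : ℝ) ≤ w := by exact_mod_cast hw
  have hcb : (0 : ℝ) < Nat.centralBinom K := by exact_mod_cast Nat.centralBinom_pos K
  have h1 : (Nat.centralBinom K : ℝ) ^ (K * (w * w - w)) ≤
      ((((K : ℝ) + 1) * (w * K)) ^ ((K + 1) * (w * K))) ^ d := by exact_mod_cast hd
  have h2 := Real.logb_le_logb_of_le (b := 2) (by norm_num) (by positivity) h1
  rw [Real.logb_pow, Real.logb_pow, Real.logb_pow] at h2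
  have h3 : Real.logb 2 (((K : ℝ) + 1) * (w * K)) = C + x := by
    rw [hC, hxdef, ← Real.logb_mul (by positivity) (by positivity)]
    congr 1
    ring
  have hcast : ((K * (w * w - w) : ℕ) : ℝ) = K * (w * (w - 1)) := by
    have : w * w - w = w * (w - 1) := by
      rw [Nat.mul_sub, mul_one]
    rw [this]
    push_cast [Nat.cast_sub (show 1 ≤ w by omega)]
    ring
  rw [h3, hcast] at h2
  push_cast at h2
  -- cancel `K w`
  have h4 : ((w : ℝ) - 1) * Real.logb 2 (Nat.centralBinom K) ≤ d * ((K + 1) * (C + x)) := by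
    have h5 : (K * w : ℝ) * (((w : ℝ) - 1) * Real.logb 2 (Nat.centralBinom K)) ≤
        (K * w : ℝ) * (d * ((K + 1) * (C + x))) := by
      calc (K * w : ℝ) * (((w : ℝ) - 1) * Real.logb 2 (Nat.centralBinom K))
          = K * (w * (w - 1)) * Real.logb 2 (Nat.centralBinom K) := by ring
        _ ≤ _ := h2
        _ = _ := by ring
    exact le_of_mul_le_mul_left h5 (by positivity)
  have h6 : ((w : ℝ) - 1) * ((2 - ε / 2) * (K + 1)) ≤ d * ((K + 1) * (C + x)) :=
    (mul_le_mul_of_nonneg_left hK (by linarith)).trans h4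
  have h7 : ((w : ℝ) - 1) * (2 - ε / 2) ≤ d * (C + x) := by
    have h8 : ((K : ℝ) + 1) * (((w : ℝ) - 1) * (2 - ε / 2)) ≤ (K + 1) * (d * (C + x)) := by
      linarith
    exact le_of_mul_le_mul_left h8 (by positivity)
  have hCx : 8 * C ≤ ε * x := by
    rw [div_le_iff₀ hε] at hx
    linarith
  have hC0 : 0 ≤ C := by
    rw [hC]
    apply Real.logb_nonneg (by norm_num)
    have : (1 : ℝ) ≤ K := by exact_mod_cast hK1
    nlinarith
  have hwε : 8 ≤ ε * w := by
    rw [div_le_iff₀ hε] at hw2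
    linarith
  have hx0 : 0 < x := by linarith
  rw [mul_div_assoc', div_le_iff₀ hx0]
  -- goal: (2 - ε) * w ≤ d * x
  have hCx0 : 0 < C + x := by linarith
  have h9 : (2 - ε) * w * (C + x) ≤ ((w : ℝ) - 1) * (2 - ε / 2) * x := by
    nlinarith [mul_pos hw0 hx0, mul_nonneg hw0.le hC0, mul_le_mul_of_nonneg_left hCx hw0.le,
      mul_le_mul_of_nonneg_right hwε hx0.le, mul_nonneg hε.le hx0.le,
      mul_nonneg hε.le (mul_nonneg hw0.le hC0)]
  have h10 : (2 - ε) * w * (C + x) ≤ d * x * (C + x) := by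
    calc (2 - ε) * w * (C + x) ≤ ((w : ℝ) - 1) * (2 - ε / 2) * x := h9
      _ ≤ d * (C + x) * x := mul_le_mul_of_nonneg_right h7 hx0.le
      _ = d * x * (C + x) := by ring
  exact le_of_mul_le_mul_right h10 hCx0

end Pool.Agent.H828R3
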