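import Pool.Agent.H828R3.Family
import Pool.Agent.H828R3.Upper

set_option autoImplicit false

namespace Pool.Agent.H828R3

open Finset

theorem cov_self (n : ℕ) : Cov n n := by
  refine ⟨fun i j => if i = j then 0 else 1, fun x => ⟨fun i => if x i = 1 then 1 else 0, ?_⟩⟩
  intro j
  have h : ∀ i : Fin n, (if (if i = j then (0 : ℕ) else 1) < (if x i = 1 then 1 else 0) then
      (1 : ZMod 2) else 0) = if i = j then x j else 0 := by
    intro i
    have hx : ∀ z : ZMod 2, z = 0 ∨ z = 1 := by decide
    by_cases hij : i = j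
    · subst hij
      rcases hx (x i) with h | h <;> simp [h]
    · rcases hx (x i) with h | h <;> simp [h, hij]
  simp only [h]
  simp

/-- every finite poset has a Boolean realizer -/
theorem exists_HasBR (X : Type) [Fintype X] [PartialOrder X] :
    ∃ d, 1 ≤ d ∧ HasBR (fun x y : X => x < y) d := by
  classical
  refine ⟨_, ?_, upper (univ : Finset X) (Fintype.card X) (Fintype.card X) (Fintype.card X)
    Finset.card_univ (fun x _ hx => absurd (mem_univ x) hx) (cov_self _) Nat.lt_two_pow_self⟩
  omega

/-- the strict order of the stack of all blocks -/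
def stk {w s R n : ℕ} (e : Fin n ≃ Sg w s R) (p q : Fin n × X0 w s R) : Prop :=
  p.1 < q.1 ∨ (p.1 = q.1 ∧ rel (e p.1) p.2 q.2)

theorem stk_strict {w s R n : ℕ} (e : Fin n ≃ Sg w s R) : IsStrictOrder _ (stk e) :=
  { irrefl := by
      rintro p (h | ⟨_, h⟩)
      · exact lt_irrefl _ h
      · exact rel_irrefl _ _ h
    trans := by
      rintro p q r (h1 | ⟨h1, h1'⟩) (h2 | ⟨h2, h2'⟩)
      · exact Or.inl (h1.trans h2)
      · exact Or.inl (h2 ▸ h1)
      · exact Or.inl (h1 ▸ h2)
      · refine Or.inr ⟨h1.trans h2, ?_⟩
        rw [← h1] at h2'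
        exact rel_trans _ _ _ _ h1' h2' }

/-- `w` is the largest number of pairwise incomparable elements -/
def WidthEq (X : Type) [PartialOrder X] (w : ℕ) : Prop :=
  (∃ A : Finset X, A.card = w ∧ ∀ x ∈ A, ∀ y ∈ A, ¬ x < y) ∧
    ∀ A : Finset X, (∀ x ∈ A, ∀ y ∈ A, ¬ x < y) → A.card ≤ w

theorem main_lower (w s R : ℕ) (hs : 1 ≤ s) :
    ∃ (X : Type) (_ : Fintype X) (_ : PartialOrder X), WidthEq X w ∧
      ∀ d, HasBR (fun x y : X => x < y) d →
        Nat.centralBinom s ^ (R * (w * w - w)) ≤
          (((R + 1) * (w * s)) ^ ((R + 1) * (w * s))) ^ d := by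
  classical
  let e : Fin (Fintype.card (Sg w s R)) ≃ Sg w s R := (Fintype.equivFin _).symm
  have hcard : 0 < Fintype.card (Sg w s R) := by
    rw [card_Sg]
    exact pow_pos (Nat.centralBinom_pos s) _
  let _ : IsStrictOrder _ (stk e) := stk_strict e
  refine ⟨Fin (Fintype.card (Sg w s R)) × X0 w s R, inferInstance, partialOrderOfSO (stk e), ?_, ?_⟩
  · constructor
    · refine ⟨univ.image fun i : Fin w => (⟨0, hcard⟩, (⟨0, by omega⟩, i, ⟨0, by omega⟩)), ?_, ?_⟩
      · rw [Finset.card_image_of_injective _ ?_, Finset.card_univ, Fintype.card_fin]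
        intro i j hij
        simp only [Prod.mk.injEq, true_and, and_true] at hij
        exact hij
      · intro x hx y hy
        rw [mem_image] at hx hy
        obtain ⟨i, _, rfl⟩ := hx
        obtain ⟨j, _, rfl⟩ := hy
        show ¬ stk e _ _
        unfold stk rel
        rintro (h | ⟨_, ⟨_, h⟩ | ⟨_, h⟩⟩)
        · exact lt_irrefl _ h
        · simp only at h
          omega
        · simp only at h
          omega
    · intro A hA
      have h1 : (A.image fun p => p.2.2.1).card = A.card := by
        apply Finset.card_image_of_injOn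
        intro p hp q hq hpq
        simp only at hpq
        have h2 : ¬ stk e p q := hA p hp q hq
        have h3 : ¬ stk e q p := hA q hq p hp
        unfold stk rel at h2 h3
        push Not at h2 h3
        obtain ⟨k, t, i, a⟩ := p
        obtain ⟨k', t', i', a'⟩ := q
        simp only at hpq h2 h3
        subst hpq
        have hk : k = k' := le_antisymm h3.1 h2.1
        have h4 := (h2.2 hk).1 rfl
        have h5 := (h3.2 hk.symm).1 rfl
        have ht : t.val = t'.val := by omega
        have h6 := h4.2 ht
        have h7 := h5.2 ht.symm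
        have ha : a.val = a'.val := by omega
        simp only [Prod.mk.injEq, true_and]
        exact ⟨hk, Fin.ext ht, Fin.ext ha⟩
      rw [← h1]
      calc (A.image fun p => p.2.2.1).card ≤ (univ : Finset (Fin w)).card :=
            Finset.card_le_card (Finset.subset_univ _)
        _ = w := by simp
  · intro d hd
    have h1 : HasBR (fun p q : Fin (Fintype.card (Sg w s R)) × X0 w s R =>
        p.1 < q.1 ∨ (p.1 = q.1 ∧ rel (e p.1) p.2 q.2)) d := hd
    have h2 := count (fun σ x y => rel σ x y) rel_irrefl rel_inj _ e d h1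
    rw [card_Sg] at h2
    simpa [Fintype.card_prod, Fintype.card_fin] using h2

end Pool.Agent.H828R3
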